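import Mathlib

/-!
# Cyclotomic subfields of a Galois number field: representation and congruences modulo 7
-/

set_option autoImplicit false

namespace Pool.Agent.Q168.LA

open Polynomial Module

variable {E : Type} [Field E] [NumberField E] [IsGalois ℚ E]

lemma pow_seven_expand (f : ℤ[X]) : ∃ g : ℤ[X], f ^ 7 = expand ℤ 7 f + C 7 * g := by
  have hdvd : C (7 : ℤ) ∣ f ^ 7 - expand ℤ 7 f := by
    rw [C_dvd_iff_dvd_coeff]
    intro i
    have : Fact (Nat.Prime 7) := ⟨by norm_num⟩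
    have h1 : (f ^ 7 - expand ℤ 7 f).map (Int.castRingHom (ZMod 7)) = 0 := by
      rw [Polynomial.map_sub, Polynomial.map_pow, map_expand, ZMod.expand_card, sub_self]
    have h2 := congrArg (fun q => coeff q i) h1
    simp only [coeff_map, coeff_zero] at h2
    exact (ZMod.intCast_zmod_eq_zero_iff_dvd _ 7).mp h2
  obtain ⟨g, hg⟩ := hdvd
  exact ⟨g, by rw [← hg]; ring⟩

omit [NumberField E] [IsGalois ℚ E] in
lemma pow_seven_aeval (ζ : E) (f : ℤ[X]) :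
    ∃ g : ℤ[X], (aeval ζ f) ^ 7 = aeval (ζ ^ 7) f + 7 * aeval ζ g := by
  obtain ⟨g, hg⟩ := pow_seven_expand f
  refine ⟨g, ?_⟩
  have h := congrArg (aeval ζ) hg
  rw [map_pow, map_add, map_mul, expand_aeval, aeval_C] at h
  simpa using h

omit [IsGalois ℚ E] in
lemma aeval_alg (s : E ≃ₐ[ℚ] E) (x : E) (f : ℤ[X]) : aeval (s x) f = s (aeval x f) :=
  aeval_algHom_apply (s.toAlgHom.restrictScalars ℤ) x f

/-- An algebraic integer fixed by the automorphisms fixing `ζ` is an integral polynomial in `ζ`. -/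
lemma exists_poly {N : ℕ} [NeZero N] {ζ : E} (hζ : IsPrimitiveRoot ζ N) {a : E}
    (ha : IsIntegral ℤ a) (hfix : ∀ s : E ≃ₐ[ℚ] E, s ζ = ζ → s a = a) :
    ∃ f : ℤ[X], a = aeval ζ f := by
  have hmem : a ∈ IntermediateField.adjoin ℚ {ζ} := by
    rw [← IsGalois.fixedField_fixingSubgroup (IntermediateField.adjoin ℚ {ζ}),
      IntermediateField.mem_fixedField_iff]
    intro s hs
    apply hfix s
    rw [IntermediateField.mem_fixingSubgroup_iff] at hs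
    exact hs _ (IntermediateField.mem_adjoin_simple_self ℚ _)
  set L := IntermediateField.adjoin ℚ {ζ} with hL
  have hcyc : IsCyclotomicExtension {N} ℚ L :=
    hζ.intermediateField_adjoin_isCyclotomicExtension ℚ
  have hinj : Function.Injective (algebraMap L E) := (algebraMap L E).injective
  have hζL : IsPrimitiveRoot (⟨ζ, IntermediateField.mem_adjoin_simple_self ℚ ζ⟩ : L) N := by
    apply IsPrimitiveRoot.of_map_of_injective (f := algebraMap L E) _ hinj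
    exact hζ
  have h := IsCyclotomicExtension.Rat.isIntegralClosure_adjoin_singleton hζL
  have haL : IsIntegral ℤ (⟨a, hmem⟩ : L) := (isIntegral_algebraMap_iff hinj).mp ha
  obtain ⟨y, hy⟩ := h.isIntegral_iff.mp haL
  have h2 : (⟨a, hmem⟩ : L) ∈ Algebra.adjoin ℤ
      {(⟨ζ, IntermediateField.mem_adjoin_simple_self ℚ ζ⟩ : L)} := by
    rw [← hy]
    exact y.2
  rw [Algebra.adjoin_singleton_eq_range_aeval] at h2
  obtain ⟨f, hf⟩ := h2
  refine ⟨f, ?_⟩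
  have h3 := congrArg (algebraMap L E) hf
  change algebraMap L E (aeval _ f) = a at h3
  rw [← h3, ← aeval_algebraMap_apply]
  rfl

omit [IsGalois ℚ E] in
lemma isIntegral_aeval {ζ : E} (hζ : IsIntegral ℤ ζ) (g : ℤ[X]) :
    IsIntegral ℤ (aeval ζ g) := by
  have h1 : aeval ζ g ∈ Algebra.adjoin ℤ {ζ} := by
    rw [Algebra.adjoin_singleton_eq_range_aeval]
    exact ⟨g, rfl⟩
  exact (Algebra.adjoin_le (S := integralClosure ℤ E)
    (Set.singleton_subset_iff.mpr hζ)) h1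

omit [IsGalois ℚ E] in
lemma isIntegral_root {N : ℕ} [NeZero N] {ζ : E} (hζ : IsPrimitiveRoot ζ N) :
    IsIntegral ℤ ζ := hζ.isIntegral (NeZero.pos N)

omit [IsGalois ℚ E] in
lemma isIntegral_map (s : E ≃ₐ[ℚ] E) {x : E} (hx : IsIntegral ℤ x) : IsIntegral ℤ (s x) :=
  hx.map (s.toAlgHom.restrictScalars ℤ)

lemma exists_frob {N : ℕ} [NeZero N] {ζ : E} (hζ : IsPrimitiveRoot ζ N) (h7 : ¬ 7 ∣ N) :
    ∃ σ : E ≃ₐ[ℚ] E, σ ζ = ζ ^ 7 := by
  have hcop : Nat.Coprime 7 N := (Nat.Prime.coprime_iff_not_dvd (by norm_num)).mpr h7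
  have hζ7 : IsPrimitiveRoot (ζ ^ 7) N := hζ.pow_of_coprime 7 hcop
  have h1 : minpoly ℚ ζ = cyclotomic N ℚ := (cyclotomic_eq_minpoly_rat hζ (NeZero.pos N)).symm
  have h2 : minpoly ℚ (ζ ^ 7) = cyclotomic N ℚ :=
    (cyclotomic_eq_minpoly_rat hζ7 (NeZero.pos N)).symm
  have hc : IsConjRoot ℚ (ζ ^ 7) ζ := by
    unfold IsConjRoot
    rw [h1, h2]
  obtain ⟨σ, hσ⟩ := hc.exists_algEquiv
  exact ⟨σ, hσ⟩

omit [IsGalois ℚ E] in
lemma map_root {N : ℕ} [NeZero N] {ζ : E} (hζ : IsPrimitiveRoot ζ N) (s : E ≃ₐ[ℚ] E) :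
    ∃ a : ℕ, s ζ = ζ ^ a := by
  have h1 : (s ζ) ^ N = 1 := by rw [← map_pow, hζ.pow_eq_one, map_one]
  obtain ⟨i, -, hi⟩ := hζ.eq_pow_of_pow_eq_one h1
  exact ⟨i, hi.symm⟩

omit [IsGalois ℚ E] in
/-- Automorphisms commute on the roots of unity. -/
lemma comm_root {N : ℕ} [NeZero N] {ζ : E} (hζ : IsPrimitiveRoot ζ N) (s t : E ≃ₐ[ℚ] E) :
    s (t ζ) = t (s ζ) := by
  obtain ⟨a, ha⟩ := map_root hζ s
  obtain ⟨b, hb⟩ := map_root hζ t
  rw [hb, ha, map_pow, map_pow, hb, ha, ← pow_mul, ← pow_mul, mul_comm]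

/-- The sum of seventh powers modulo 7. -/
lemma sum_pow_seven {ι : Type} (s : Finset ι) (a : ι → E) (ha : ∀ i ∈ s, IsIntegral ℤ (a i)) :
    ∃ δ : E, IsIntegral ℤ δ ∧ (∑ i ∈ s, a i) ^ 7 = ∑ i ∈ s, a i ^ 7 + 7 * δ := by
  classical
  induction s using Finset.induction_on with
  | empty => exact ⟨0, isIntegral_zero, by simp⟩
  | insert i s hi ih =>
    obtain ⟨δ, h1, h2⟩ := ih (fun j hj => ha j (Finset.mem_insert_of_mem hj))
    have h3 := ha i (Finset.mem_insert_self i s)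
    have h4 : IsIntegral ℤ (∑ i ∈ s, a i) :=
      IsIntegral.sum _ (fun j hj => ha j (Finset.mem_insert_of_mem hj))
    set S := ∑ i ∈ s, a i with hS
    refine ⟨δ + (a i ^ 6 * S + 3 • (a i ^ 5 * S ^ 2) + 5 • (a i ^ 4 * S ^ 3) +
      5 • (a i ^ 3 * S ^ 4) + 3 • (a i ^ 2 * S ^ 5) + a i * S ^ 6), ?_, ?_⟩
    · refine h1.add ?_
      have hn : ∀ (n : ℕ) {x : E}, IsIntegral ℤ x → IsIntegral ℤ (n • x) := by
        intro n x hx
        exact hx.nsmul n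
      exact ((((((h3.pow 6).mul h4).add (hn 3 ((h3.pow 5).mul (h4.pow 2)))).add
        (hn 5 ((h3.pow 4).mul (h4.pow 3)))).add (hn 5 ((h3.pow 3).mul (h4.pow 4)))).add
        (hn 3 ((h3.pow 2).mul (h4.pow 5)))).add (h3.mul (h4.pow 6))
    · rw [Finset.sum_insert hi, Finset.sum_insert hi, ← hS]
      simp only [nsmul_eq_mul]
      push_cast
      linear_combination h2

/-- The congruence for a sum which lies in the field of `ζ`. -/
lemma cong {N : ℕ} [NeZero N] {ζ : E} (hζ : IsPrimitiveRoot ζ N) (Y : Finset E)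
    (a : E → E) (hY : ∀ y ∈ Y, IsIntegral ℤ (a y))
    (hfix : ∀ s : E ≃ₐ[ℚ] E, s ζ = ζ → s (∑ y ∈ Y, a y) = ∑ y ∈ Y, a y) :
    (∀ σ : E ≃ₐ[ℚ] E, σ ζ = ζ ^ 7 → ∃ δ : E, IsIntegral ℤ δ ∧
      ∑ y ∈ Y, a y ^ 7 - σ (∑ y ∈ Y, a y) = 7 * δ) ∧
    (∀ σ : E ≃ₐ[ℚ] E, σ (ζ ^ 7) = ζ ^ 7 → ∃ δ : E, IsIntegral ℤ δ ∧
      ∑ y ∈ Y, a y ^ 7 - σ (∑ y ∈ Y, a y ^ 7) = 7 * δ) := by
  have hint : IsIntegral ℤ (∑ y ∈ Y, a y) := IsIntegral.sum _ hY
  obtain ⟨f, hf⟩ := exists_poly hζ hint hfix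
  obtain ⟨g, hg⟩ := pow_seven_aeval ζ f
  obtain ⟨d, hd1, hd2⟩ := sum_pow_seven Y a hY
  have hgi : IsIntegral ℤ (aeval ζ g) := isIntegral_aeval (isIntegral_root hζ) g
  refine ⟨?_, ?_⟩
  · intro σ hσ
    refine ⟨aeval ζ g - d, hgi.sub hd1, ?_⟩
    have h1 : σ (∑ y ∈ Y, a y) = aeval (ζ ^ 7) f := by rw [hf, ← aeval_alg, hσ]
    rw [h1]
    rw [hf] at hd2
    linear_combination hg - hd2
  · intro σ hσ
    refine ⟨aeval ζ g - d - σ (aeval ζ g - d), (hgi.sub hd1).sub (isIntegral_map σ (hgi.sub hd1)),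
      ?_⟩
    have h1 : ∑ y ∈ Y, a y ^ 7 = aeval (ζ ^ 7) f + 7 * (aeval ζ g - d) := by
      rw [hf] at hd2
      linear_combination hg - hd2
    have h2 : σ (∑ y ∈ Y, a y ^ 7) = aeval (ζ ^ 7) f + 7 * σ (aeval ζ g - d) := by
      rw [h1, map_add, map_mul, ← aeval_alg, hσ, map_ofNat]
    rw [h2, h1]
    ring

end Pool.Agent.Q168.LA
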