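import Mathlib

/-!
# Finite sets with equal elementary symmetric functions, seventh roots of unity
-/

set_option autoImplicit false

namespace Pool.Agent.Q168.LA

open Polynomial

variable {E : Type} [Field E]

lemma mset2 {a1 a2 b1 b2 : E} (h1 : a1 + a2 = b1 + b2) (h3 : a1 * a2 = b1 * b2) :
    ({a1, a2} : Multiset E) = {b1, b2} := by
  have h : (({a1, a2} : Multiset E).map (fun a => (X - C a : E[X]))).prod =
      (({b1, b2} : Multiset E).map (fun a => (X - C a : E[X]))).prod := by
    simp only [Multiset.insert_eq_cons, Multiset.map_cons, Multiset.map_singleton,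
      Multiset.prod_cons, Multiset.prod_singleton]
    have e1 := congrArg (C : E → E[X]) h1
    have e3 := congrArg (C : E → E[X]) h3
    simp only [map_add, map_mul] at e1 e3
    linear_combination (-X) * e1 + e3
  have h' := congrArg Polynomial.roots h
  rwa [Polynomial.roots_multiset_prod_X_sub_C, Polynomial.roots_multiset_prod_X_sub_C] at h'

lemma mset3 {a1 a2 a3 b1 b2 b3 : E} (h1 : a1 + a2 + a3 = b1 + b2 + b3)
    (h2 : a1 * a2 + a1 * a3 + a2 * a3 = b1 * b2 + b1 * b3 + b2 * b3)
    (h3 : a1 * a2 * a3 = b1 * b2 * b3) :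
    ({a1, a2, a3} : Multiset E) = {b1, b2, b3} := by
  have h : (({a1, a2, a3} : Multiset E).map (fun a => (X - C a : E[X]))).prod =
      (({b1, b2, b3} : Multiset E).map (fun a => (X - C a : E[X]))).prod := by
    simp only [Multiset.insert_eq_cons, Multiset.map_cons, Multiset.map_singleton,
      Multiset.prod_cons, Multiset.prod_singleton]
    have e1 := congrArg (C : E → E[X]) h1
    have e2 := congrArg (C : E → E[X]) h2
    have e3 := congrArg (C : E → E[X]) h3
    simp only [map_add, map_mul] at e1 e2 e3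
    linear_combination (-X ^ 2) * e1 + X * e2 - e3
  have h' := congrArg Polynomial.roots h
  rwa [Polynomial.roots_multiset_prod_X_sub_C, Polynomial.roots_multiset_prod_X_sub_C] at h'

/-- Equal power sums with exponents `1`, `-1` and equal products determine the values. -/
lemma mset (Y : Finset E) (hcard : Y.card = 2 ∨ Y.card = 3) (a b : E → E)
    (ha : ∀ y ∈ Y, a y ≠ 0) (hb : ∀ y ∈ Y, b y ≠ 0)
    (h1 : ∑ y ∈ Y, a y = ∑ y ∈ Y, b y) (h2 : ∑ y ∈ Y, (a y)⁻¹ = ∑ y ∈ Y, (b y)⁻¹)
    (h3 : ∏ y ∈ Y, a y = ∏ y ∈ Y, b y) : Y.val.map a = Y.val.map b := by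
  classical
  rcases hcard with h | h
  · obtain ⟨y1, y2, h12, rfl⟩ := Finset.card_eq_two.mp h
    rw [Finset.sum_pair h12, Finset.sum_pair h12] at h1
    rw [Finset.prod_pair h12, Finset.prod_pair h12] at h3
    have hv : ({y1, y2} : Finset E).val = {y1, y2} := by
      rw [Finset.insert_val_of_notMem (by simpa using h12)]
      rfl
    rw [hv]
    simpa using mset2 h1 h3
  · obtain ⟨y1, y2, y3, h12, h13, h23, rfl⟩ := Finset.card_eq_three.mp h
    have hn1 : y1 ∉ ({y2, y3} : Finset E) := by simp [h12, h13]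
    rw [Finset.sum_insert hn1, Finset.sum_pair h23, Finset.sum_insert hn1,
      Finset.sum_pair h23] at h1 h2
    rw [Finset.prod_insert hn1, Finset.prod_pair h23, Finset.prod_insert hn1,
      Finset.prod_pair h23] at h3
    have a1 := ha y1 (by simp)
    have a2 := ha y2 (by simp)
    have a3 := ha y3 (by simp)
    have b1 := hb y1 (by simp)
    have b2 := hb y2 (by simp)
    have b3 := hb y3 (by simp)
    have hv : ({y1, y2, y3} : Finset E).val = {y1, y2, y3} := by
      rw [Finset.insert_val_of_notMem hn1, Finset.insert_val_of_notMem (by simpa using h23)]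
      rfl
    rw [hv]
    have h4 : a y1 * a y2 + a y1 * a y3 + a y2 * a y3 =
        b y1 * b y2 + b y1 * b y3 + b y2 * b y3 := by
      have e1 : a y1 * a y2 + a y1 * a y3 + a y2 * a y3 =
          (a y1 * (a y2 * a y3)) * ((a y1)⁻¹ + ((a y2)⁻¹ + (a y3)⁻¹)) := by
        field_simp
        ring
      have e2 : b y1 * b y2 + b y1 * b y3 + b y2 * b y3 =
          (b y1 * (b y2 * b y3)) * ((b y1)⁻¹ + ((b y2)⁻¹ + (b y3)⁻¹)) := by
        field_simp
        ring
      rw [e1, e2, h3, h2]
    have := mset3 (a1 := a y1) (a2 := a y2) (a3 := a y3) (b1 := b y1) (b2 := b y2) (b3 := b y3)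
      (by linear_combination h1) h4 (by linear_combination h3)
    simpa using this

/-- A matching of equal values. -/
lemma exists_matching (Y : Finset E) (a b : E → E) (h : Y.val.map a = Y.val.map b) :
    ∃ e : {y // y ∈ Y} ≃ {y // y ∈ Y}, ∀ y, b (e y) = a y := by
  classical
  have hc : ∀ c : E, Nonempty ({y : {y // y ∈ Y} // a y = c} ≃ {y : {y // y ∈ Y} // b y = c}) := by
    intro c
    have h1 := congrArg (Multiset.count c) h
    rw [Multiset.count_map, Multiset.count_map] at h1
    have key : ∀ f : E → E, Fintype.card {y : {y // y ∈ Y} // f y = c} =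
        (Multiset.filter (fun x => c = f x) Y.val).card := by
      intro f
      rw [Fintype.card_subtype]
      have h2 : (Multiset.filter (fun x => c = f x) Y.val).card =
          (Y.filter (fun x => c = f x)).card := rfl
      rw [h2]
      refine Finset.card_bij (fun y _ => y.1) ?_ ?_ ?_
      · intro y hy
        rw [Finset.mem_filter] at hy ⊢
        exact ⟨y.2, hy.2.symm⟩
      · intro x _ y _ hxy
        exact Subtype.ext hxy
      · intro y hy
        rw [Finset.mem_filter] at hy
        exact ⟨⟨y, hy.1⟩, by rw [Finset.mem_filter]; exact ⟨Finset.mem_univ _, hy.2.symm⟩, rfl⟩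
    have h3 := (key a).trans (h1.trans (key b).symm)
    exact ⟨Fintype.equivOfCardEq h3⟩
  refine ⟨Equiv.ofFiberEquiv (f := fun y : {y // y ∈ Y} => a y)
    (g := fun y : {y // y ∈ Y} => b y) (fun c => (hc c).some), fun y => ?_⟩
  exact Equiv.ofFiberEquiv_map (f := fun y : {y // y ∈ Y} => a y)
    (g := fun y : {y // y ∈ Y} => b y) _ y

lemma conj_root {a : ℂ} (ha : a ^ 7 = 1) : (starRingEnd ℂ) a = a⁻¹ := by
  have h1 : ‖a‖ = 1 := Complex.norm_eq_one_of_pow_eq_one ha (by norm_num)
  exact (Complex.inv_eq_conj h1).symm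

lemma eq_of_cube {a b : ℂ} (ha : a ^ 7 = 1) (hb : b ^ 7 = 1) (h : a ^ 3 = b ^ 3) : a = b := by
  have h1 : a ^ 6 = b ^ 6 := by
    calc a ^ 6 = (a ^ 3) ^ 2 := by ring
      _ = (b ^ 3) ^ 2 := by rw [h]
      _ = b ^ 6 := by ring
  have hb0 : b ^ 6 ≠ 0 := by
    intro h0
    have : b ^ 7 = 0 := by rw [pow_succ, h0, zero_mul]
    rw [hb] at this
    exact one_ne_zero this
  apply mul_left_cancel₀ hb0
  calc b ^ 6 * a = a ^ 6 * a := by rw [h1]
    _ = a ^ 7 := by ring
    _ = b ^ 7 := by rw [ha, hb]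
    _ = b ^ 6 * b := by ring

/-- Three seventh roots of unity with `a² + b² + c² = ab + bc + ca` are equal. -/
lemma eta3C {a b c : ℂ} (ha : a ^ 7 = 1) (hb : b ^ 7 = 1) (hc : c ^ 7 = 1)
    (h : a ^ 2 + b ^ 2 + c ^ 2 = a * b + b * c + c * a) : a = b ∧ b = c := by
  have h0 : ∀ x : ℂ, x ^ 7 = 1 → x ≠ 0 := by
    rintro x hx rfl
    norm_num at hx
  have ha0 := h0 a ha
  have hb0 := h0 b hb
  have hc0 := h0 c hc
  set s := a + b + c with hs
  have h1 : s ^ 2 = 3 * (a * b * c) * (starRingEnd ℂ) s := by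
    rw [hs, map_add, map_add, conj_root ha, conj_root hb, conj_root hc]
    field_simp
    linear_combination h
  have hn : ∀ x : ℂ, x ^ 7 = 1 → ‖x‖ = 1 := fun x hx =>
    Complex.norm_eq_one_of_pow_eq_one hx (by norm_num)
  have h2 : ‖s‖ ^ 2 = 3 * ‖s‖ := by
    have := congrArg norm h1
    rw [norm_pow, norm_mul, norm_mul, norm_mul, norm_mul, hn a ha, hn b hb, hn c hc,
      Complex.norm_conj] at this
    simpa using this
  by_cases hs0 : s = 0
  · exfalso
    have h3 : a * b + b * c + c * a = 0 := by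
      have : s ^ 2 = 0 := by rw [hs0]; ring
      rw [hs] at this
      linear_combination (this - h) / 3
    have e1 : c = -a - b := by
      rw [hs] at hs0
      linear_combination hs0
    have h4 : a ^ 2 + a * b + b ^ 2 = 0 := by
      rw [e1] at h3
      linear_combination -h3
    have h5 : a ^ 3 = b ^ 3 := by linear_combination (a - b) * h4
    have h6 := eq_of_cube ha hb h5
    rw [h6] at h4
    have h7 : b ^ 2 = 0 := by linear_combination h4 / 3
    exact hb0 (pow_eq_zero_iff (by norm_num) |>.mp h7)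
  · have hsn : ‖s‖ ≠ 0 := norm_ne_zero_iff.mpr hs0
    have h3 : ‖s‖ = 3 := by
      have : ‖s‖ * ‖s‖ = 3 * ‖s‖ := by rw [← h2]; ring
      exact mul_right_cancel₀ hsn this
    have h4 : s * (starRingEnd ℂ) s = 9 := by
      rw [Complex.mul_conj, Complex.normSq_eq_norm_sq, h3]
      norm_num
    -- s³ = 27 abc and conj s = 9 / s, so (a+b+c)(1/a+1/b+1/c) = 9
    have key : ∀ x y : ℂ, x ^ 7 = 1 → y ^ 7 = 1 → ‖x + y‖ = 2 → x = y := by
      intro x y hx hy hxy
      have e1 : (x + y) * (starRingEnd ℂ) (x + y) = 4 := by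
        rw [Complex.mul_conj, Complex.normSq_eq_norm_sq, hxy]
        norm_num
      rw [map_add, conj_root hx, conj_root hy] at e1
      have hx0 := h0 x hx
      have hy0 := h0 y hy
      field_simp at e1
      have e2 : (x - y) ^ 2 = 0 := by linear_combination e1
      exact sub_eq_zero.mp (pow_eq_zero_iff (by norm_num) |>.mp e2)
    have hab : ‖a + b‖ = 2 := by
      apply le_antisymm
      · calc ‖a + b‖ ≤ ‖a‖ + ‖b‖ := norm_add_le _ _
          _ = 2 := by rw [hn a ha, hn b hb]; norm_num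
      · have := norm_add_le (a + b) c
        rw [← hs, h3, hn c hc] at this
        linarith
    have hbc : ‖b + c‖ = 2 := by
      apply le_antisymm
      · calc ‖b + c‖ ≤ ‖b‖ + ‖c‖ := norm_add_le _ _
          _ = 2 := by rw [hn b hb, hn c hc]; norm_num
      · have := norm_add_le a (b + c)
        rw [← add_assoc, ← hs, h3, hn a ha] at this
        linarith
    exact ⟨key a b ha hb hab, key b c hb hc hbc⟩

lemma eta3 (ι : E →+* ℂ) {a b c : E} (ha : a ^ 7 = 1) (hb : b ^ 7 = 1) (hc : c ^ 7 = 1)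
    (h : a ^ 2 + b ^ 2 + c ^ 2 = a * b + b * c + c * a) : a = b ∧ b = c := by
  have h1 : ∀ {x : E}, x ^ 7 = 1 → (ι x) ^ 7 = 1 := by
    intro x hx
    rw [← map_pow, hx, map_one]
  have h2 := eta3C (h1 ha) (h1 hb) (h1 hc) (by
    have := congrArg ι h
    simpa only [map_add, map_mul, map_pow] using this)
  exact ⟨ι.injective h2.1, ι.injective h2.2⟩

/-- The determinant of the three cyclic relations vanishes. -/
lemma det3 {y1 y2 y3 n1 n2 n3 T : E} (h12 : y1 ≠ y2)
    (e0 : n1 * y1 + n2 * y2 + n3 * y3 = T) (e1 : n1 * y2 + n2 * y3 + n3 * y1 = T)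
    (e2 : n1 * y3 + n2 * y1 + n3 * y2 = T) :
    n1 ^ 2 + n2 ^ 2 + n3 ^ 2 = n1 * n2 + n2 * n3 + n3 * n1 := by
  have hu : y1 - y2 ≠ 0 := sub_ne_zero.mpr h12
  apply mul_left_cancel₀ hu
  linear_combination (n1 - n2) * (e0 - e1) - (n2 - n3) * (e1 - e2)

end Pool.Agent.Q168.LA
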