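import Mathlib
import Pool.Agent.Q168.LA.Basic
import Pool.Agent.Q168.LA.Sets

/-!
# The algebraic integer divisible by seven
-/

set_option autoImplicit false

namespace Pool.Agent.Q168.LA

open Polynomial Module

variable {E : Type} [Field E] [NumberField E] [IsGalois ℚ E]

lemma one_le_prod (ι : E →+* ℂ) {γ : E} (hγ : IsIntegral ℤ γ) (h0 : γ ≠ 0) :
    1 ≤ ∏ s : E ≃ₐ[ℚ] E, ‖ι (s γ)‖ := by
  have h1 := Algebra.norm_eq_prod_automorphisms ℚ γ
  have h2 : IsIntegral ℤ (Algebra.norm ℚ γ) := Algebra.isIntegral_norm ℚ hγ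
  obtain ⟨n, hn⟩ := IsIntegrallyClosed.isIntegral_iff.mp h2
  have h3 : Algebra.norm ℚ γ ≠ 0 := Algebra.norm_ne_zero_iff.mpr h0
  have h4 : n ≠ 0 := by
    rintro rfl
    exact h3 (by rw [← hn]; simp)
  have h5 : ∏ s : E ≃ₐ[ℚ] E, ι (s γ) = (n : ℂ) := by
    rw [← map_prod, ← h1, ← hn]
    simp
  have h6 : ∏ s : E ≃ₐ[ℚ] E, ‖ι (s γ)‖ = |(n : ℝ)| := by
    rw [← norm_prod, h5, Complex.norm_intCast]
  rw [h6]
  exact_mod_cast Int.one_le_abs h4

lemma seven_pow_le (ι : E →+* ℂ) {γ δ : E} (h : γ = 7 * δ) (hδ : IsIntegral ℤ δ)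
    (h0 : γ ≠ 0) :
    (7 : ℝ) ^ (Fintype.card (E ≃ₐ[ℚ] E)) ≤ ∏ s : E ≃ₐ[ℚ] E, ‖ι (s γ)‖ := by
  have hδ0 : δ ≠ 0 := by
    rintro rfl
    exact h0 (by rw [h, mul_zero])
  have h1 := one_le_prod ι hδ hδ0
  have h2 : ∏ s : E ≃ₐ[ℚ] E, ‖ι (s γ)‖ =
      (7 : ℝ) ^ (Fintype.card (E ≃ₐ[ℚ] E)) * ∏ s : E ≃ₐ[ℚ] E, ‖ι (s δ)‖ := by
    rw [← Finset.card_univ, ← Finset.prod_const, ← Finset.prod_mul_distrib]
    refine Finset.prod_congr rfl fun s _ => ?_
    have h5 : ‖ι (s 7)‖ = 7 := by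
      rw [map_ofNat s 7, map_ofNat ι 7]
      norm_num
    rw [h, map_mul, map_mul, norm_mul, h5]
  rw [h2]
  exact le_mul_of_one_le_right (by positivity) h1

/-- An algebraic integer divisible by seven with small conjugates is zero. -/
lemma eq_zero_of_small (ι : E →+* ℂ) {γ δ : E} (h : γ = 7 * δ) (hδ : IsIntegral ℤ δ)
    (hb : ∀ s : E ≃ₐ[ℚ] E, ‖ι (s γ)‖ ≤ 2) : γ = 0 := by
  by_contra h0
  have h1 := seven_pow_le ι h hδ h0
  have h2 : ∏ s : E ≃ₐ[ℚ] E, ‖ι (s γ)‖ ≤ 2 ^ (Fintype.card (E ≃ₐ[ℚ] E)) := by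
    rw [← Finset.card_univ, ← Finset.prod_const]
    exact Finset.prod_le_prod (fun s _ => norm_nonneg _) (fun s _ => hb s)
  have h3 : (2 : ℝ) ^ (Fintype.card (E ≃ₐ[ℚ] E)) < 7 ^ (Fintype.card (E ≃ₐ[ℚ] E)) :=
    pow_lt_pow_left₀ (by norm_num) (by norm_num) Fintype.card_ne_zero
  linarith

omit [NumberField E] [IsGalois ℚ E] in
lemma norm_root (ι : E →+* ℂ) {x : E} (hx : ∃ n : ℕ, 0 < n ∧ x ^ n = 1) : ‖ι x‖ = 1 := by
  obtain ⟨n, hn, h⟩ := hx
  exact Complex.norm_eq_one_of_pow_eq_one (by rw [← map_pow, h, map_one]) hn.ne'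

omit [NumberField E] [IsGalois ℚ E] in
lemma root_map [Algebra ℚ E] (s : E ≃ₐ[ℚ] E) {x : E} (hx : ∃ n : ℕ, 0 < n ∧ x ^ n = 1) :
    ∃ n : ℕ, 0 < n ∧ (s x) ^ n = 1 := by
  obtain ⟨n, hn, h⟩ := hx
  exact ⟨n, hn, by rw [← map_pow, h, map_one]⟩

omit [NumberField E] [IsGalois ℚ E] in
lemma root_pow {x : E} (hx : ∃ n : ℕ, 0 < n ∧ x ^ n = 1) (k : ℕ) :
    ∃ n : ℕ, 0 < n ∧ (x ^ k) ^ n = 1 := by
  obtain ⟨n, hn, h⟩ := hx
  exact ⟨n, hn, by rw [← pow_mul, mul_comm, pow_mul, h, one_pow]⟩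

omit [IsGalois ℚ E] in
lemma root_integral {x : E} (hx : ∃ n : ℕ, 0 < n ∧ x ^ n = 1) : IsIntegral ℤ x := by
  obtain ⟨n, hn, h⟩ := hx
  refine ⟨X ^ n - 1, monic_X_pow_sub_C (1 : ℤ) hn.ne', ?_⟩
  simp [h]

/-- The action on the roots of unity in the field of `ζ`. -/
lemma root_action (ι : E →+* ℂ) {N : ℕ} [NeZero N] {ζ : E} (hζ : IsPrimitiveRoot ζ N) {x : E}
    (hx : ∃ n : ℕ, 0 < n ∧ x ^ n = 1) (hfix : ∀ s : E ≃ₐ[ℚ] E, s ζ = ζ → s x = x)
    (σ : E ≃ₐ[ℚ] E) :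
    (σ ζ = ζ ^ 7 → σ x = x ^ 7) ∧ (σ (ζ ^ 7) = ζ ^ 7 → (σ x) ^ 7 = x ^ 7) := by
  have h := cong hζ {x} id (by
    intro y hy
    rw [Finset.mem_singleton] at hy
    rw [hy]
    exact root_integral hx) (by
    intro s hs
    simpa using hfix s hs)
  have hb : ∀ u v : E, (∃ n : ℕ, 0 < n ∧ u ^ n = 1) → (∃ n : ℕ, 0 < n ∧ v ^ n = 1) →
      ∀ s : E ≃ₐ[ℚ] E, ‖ι (s (u - v))‖ ≤ 2 := by
    intro u v hu hv s
    rw [map_sub, map_sub]
    calc ‖ι (s u) - ι (s v)‖ ≤ ‖ι (s u)‖ + ‖ι (s v)‖ := norm_sub_le _ _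
      _ = 2 := by
        rw [norm_root ι (root_map s hu), norm_root ι (root_map s hv)]
        norm_num
  refine ⟨fun hσ => ?_, fun hσ => ?_⟩
  · obtain ⟨δ, h1, h2⟩ := h.1 σ hσ
    simp only [Finset.sum_singleton, id] at h2
    have := eq_zero_of_small ι h2 h1 (hb _ _ (root_pow hx 7) (root_map σ hx))
    exact (sub_eq_zero.mp this).symm
  · obtain ⟨δ, h1, h2⟩ := h.2 σ hσ
    simp only [Finset.sum_singleton, id] at h2
    have := eq_zero_of_small ι h2 h1 (hb _ _ (root_pow hx 7) (root_map σ (root_pow hx 7)))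
    rw [map_pow] at this
    exact (sub_eq_zero.mp this).symm

section sets

variable {ζ : E} {Y : Finset E}

omit [NumberField E] [IsGalois ℚ E] in
lemma sum_stable [Algebra ℚ E] (s : E ≃ₐ[ℚ] E) (hs : ∀ y ∈ Y, s y ∈ Y) (F : E → E) :
    ∑ y ∈ Y, F (s y) = ∑ y ∈ Y, F y := by
  classical
  have h1 : Y.image s = Y := by
    apply Finset.eq_of_subset_of_card_le
    · intro x hx
      obtain ⟨y, hy, rfl⟩ := Finset.mem_image.mp hx
      exact hs y hy
    · rw [Finset.card_image_of_injective _ s.injective]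
  conv_rhs => rw [← h1]
  rw [Finset.sum_image (fun a _ b _ h => s.injective h)]

omit [NumberField E] [IsGalois ℚ E] in
lemma prod_stable [Algebra ℚ E] (s : E ≃ₐ[ℚ] E) (hs : ∀ y ∈ Y, s y ∈ Y) (F : E → E) :
    ∏ y ∈ Y, F (s y) = ∏ y ∈ Y, F y := by
  classical
  have h1 : Y.image s = Y := by
    apply Finset.eq_of_subset_of_card_le
    · intro x hx
      obtain ⟨y, hy, rfl⟩ := Finset.mem_image.mp hx
      exact hs y hy
    · rw [Finset.card_image_of_injective _ s.injective]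
  conv_rhs => rw [← h1]
  rw [Finset.prod_image (fun a _ b _ h => s.injective h)]

omit [NumberField E] [IsGalois ℚ E] in
/-- If the seventh powers of the elements of a finite set are images of elements of this set, then
these are roots of unity. -/
lemma root_of_frob [Algebra ℚ E] (σ : E ≃ₐ[ℚ] E) (hσ : 0 < orderOf σ) (h0 : ∀ y ∈ Y, y ≠ 0)
    (h : ∀ y ∈ Y, ∃ y' ∈ Y, y ^ 7 = σ y') : ∀ y ∈ Y, ∃ n : ℕ, 0 < n ∧ y ^ n = 1 := by
  have h1 : ∀ (n : ℕ), ∀ y ∈ Y, ∃ y' ∈ Y, y ^ (7 ^ n) = (σ ^ n) y' := by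
    intro n
    induction n with
    | zero => exact fun y hy => ⟨y, hy, by simp⟩
    | succ n ih =>
      intro y hy
      obtain ⟨y1, hy1, e1⟩ := ih y hy
      obtain ⟨y2, hy2, e2⟩ := h y1 hy1
      refine ⟨y2, hy2, ?_⟩
      rw [pow_succ, pow_mul, e1, ← map_pow, e2, pow_succ]
      rfl
  intro y hy
  have h2 : ∀ j : ℕ, y ^ (7 ^ (orderOf σ * j)) ∈ Y := by
    intro j
    obtain ⟨y', hy', e⟩ := h1 (orderOf σ * j) y hy
    rw [pow_mul σ, pow_orderOf_eq_one, one_pow] at e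
    rw [e]
    exact hy'
  obtain ⟨i, j, hij, heq⟩ := Finite.exists_ne_map_eq_of_infinite
    (fun j : ℕ => (⟨y ^ (7 ^ (orderOf σ * j)), h2 j⟩ : {x // x ∈ Y}))
  have heq' : y ^ (7 ^ (orderOf σ * i)) = y ^ (7 ^ (orderOf σ * j)) := congrArg Subtype.val heq
  have key : ∀ i j : ℕ, i < j → y ^ (7 ^ (orderOf σ * i)) = y ^ (7 ^ (orderOf σ * j)) →
      ∃ n : ℕ, 0 < n ∧ y ^ n = 1 := by
    intro i j hij heq'
    have hlt : 7 ^ (orderOf σ * i) < 7 ^ (orderOf σ * j) :=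
      Nat.pow_lt_pow_right (by norm_num) (Nat.mul_lt_mul_of_pos_left hij hσ)
    refine ⟨7 ^ (orderOf σ * j) - 7 ^ (orderOf σ * i), by omega, ?_⟩
    have h3 : y ^ (7 ^ (orderOf σ * i)) ≠ 0 := pow_ne_zero _ (h0 y hy)
    apply mul_left_cancel₀ h3
    rw [← pow_add, Nat.add_sub_cancel' hlt.le, mul_one, heq']
  rcases lt_or_gt_of_ne hij with h3 | h3
  · exact key i j h3 heq'
  · exact key j i h3 heq'.symm

/-- In the ramified case, if the seventh powers match, the automorphism multiplies the set by a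
seventh root of unity. -/
lemma eta_exists (ι : E →+* ℂ) {N : ℕ} [NeZero N] (hζ : IsPrimitiveRoot ζ N) (h7 : 7 ∣ N)
    (hcard : Y.card = 2 ∨ Y.card = 3) (h0 : ∀ y ∈ Y, y ≠ 0)
    (hint : ∀ y ∈ Y, IsIntegral ℤ y)
    (hstab : ∀ s : E ≃ₐ[ℚ] E, s ζ = ζ → ∀ y ∈ Y, s y ∈ Y)
    (htrans : ∀ y ∈ Y, ∀ y' ∈ Y, ∃ s : E ≃ₐ[ℚ] E, s ζ = ζ ∧ s y = y')
    (σ : E ≃ₐ[ℚ] E) (e : {y // y ∈ Y} ≃ {y // y ∈ Y})
    (he : ∀ y : {y // y ∈ Y}, (σ (e y).1) ^ 7 = y.1 ^ 7) :
    ∃ η : E, η ^ 7 = 1 ∧ ∀ y : {y // y ∈ Y}, σ (e y).1 = η * y.1 := by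
  classical
  -- the individual factors
  set n : {y // y ∈ Y} → E := fun y => σ (e y).1 / y.1 with hn
  have hn7 : ∀ y, n y ^ 7 = 1 := by
    intro y
    rw [hn]
    simp only
    rw [div_pow, he y, div_self (pow_ne_zero 7 (h0 y.1 y.2))]
  have hσ : ∀ y, σ (e y).1 = n y * y.1 := by
    intro y
    rw [hn]
    simp only
    rw [div_mul_cancel₀ _ (h0 y.1 y.2)]
  -- the factors are fixed by the automorphisms fixing ζ
  obtain ⟨k, hk⟩ := h7
  have hprim : IsPrimitiveRoot (ζ ^ k) 7 := hζ.pow (NeZero.pos N) (by rw [hk]; ring)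
  have hfixn : ∀ (s : E ≃ₐ[ℚ] E), s ζ = ζ → ∀ y, s (n y) = n y := by
    intro s hs y
    obtain ⟨i, -, hi⟩ := hprim.eq_pow_of_pow_eq_one (hn7 y)
    rw [← hi, map_pow, map_pow, hs]
  -- the sum is fixed as well
  set T := σ (∑ y ∈ Y, y) with hT
  have hTsum : T = ∑ y : {y // y ∈ Y}, n y * y.1 := by
    rw [hT, map_sum]
    rw [← Finset.sum_coe_sort Y (fun y => σ y)]
    rw [← Equiv.sum_comp e (fun y : {y // y ∈ Y} => σ y.1)]
    exact Finset.sum_congr rfl fun y _ => hσ y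
  have hTfix : ∀ (s : E ≃ₐ[ℚ] E), s ζ = ζ → s T = T := by
    intro s hs
    have hx : IsIntegral ℤ (∑ y ∈ Y, y) := IsIntegral.sum _ hint
    obtain ⟨f, hf⟩ := exists_poly hζ hx (fun t ht => by
      rw [map_sum]
      exact sum_stable t (hstab t ht) id)
    rw [hT, hf, ← aeval_alg, ← aeval_alg, comm_root hζ, hs]
  have hTs : ∀ (s : E ≃ₐ[ℚ] E), s ζ = ζ → ∑ y : {y // y ∈ Y}, n y * s y.1 = T := by
    intro s hs
    conv_rhs => rw [← hTfix s hs, hTsum, map_sum]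
    refine Finset.sum_congr rfl fun y _ => ?_
    rw [map_mul, hfixn s hs]
  rcases hcard with hc | hc
  · obtain ⟨y1, y2, h12, rfl⟩ := Finset.card_eq_two.mp hc
    have m1 : y1 ∈ ({y1, y2} : Finset E) := by simp
    have m2 : y2 ∈ ({y1, y2} : Finset E) := by simp
    obtain ⟨s, hs1, hs2⟩ := htrans y1 m1 y2 m2
    have hs3 : s y2 = y1 := by
      have h1 := hstab s hs1 y2 m2
      rw [Finset.mem_insert, Finset.mem_singleton] at h1
      rcases h1 with h1 | h1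
      · exact h1
      · exfalso
        apply h12
        apply s.injective
        rw [hs2, h1]
    have hsum : ∀ F : {y // y ∈ ({y1, y2} : Finset E)} → E,
        ∑ y : {y // y ∈ ({y1, y2} : Finset E)}, F y = F ⟨y1, m1⟩ + F ⟨y2, m2⟩ := by
      intro F
      have : (Finset.univ : Finset {y // y ∈ ({y1, y2} : Finset E)}) =
          {⟨y1, m1⟩, ⟨y2, m2⟩} := by
        ext ⟨y, hy⟩
        have hy' := hy
        rw [Finset.mem_insert, Finset.mem_singleton] at hy'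
        rcases hy' with h | h <;> simp [h]
      rw [this, Finset.sum_pair (by simpa using h12)]
    have e0 := hTs 1 rfl
    have e1 := hTs s hs1
    rw [hsum] at e0 e1
    simp only [AlgEquiv.one_apply, hs2, hs3] at e0 e1
    have h1 : n ⟨y1, m1⟩ = n ⟨y2, m2⟩ := by
      have : (n ⟨y1, m1⟩ - n ⟨y2, m2⟩) * (y1 - y2) = 0 := by
        linear_combination e0 - e1
      rcases mul_eq_zero.mp this with h | h
      · exact sub_eq_zero.mp h
      · exact absurd (sub_eq_zero.mp h) h12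
    refine ⟨n ⟨y1, m1⟩, hn7 _, ?_⟩
    rintro ⟨y, hy⟩
    have hy' := hy
    rw [Finset.mem_insert, Finset.mem_singleton] at hy'
    rcases hy' with h | h
    · subst h
      exact hσ _
    · subst h
      rw [h1]
      exact hσ _
  · -- a 3-cycle
    obtain ⟨z1, z2, z3, k12, k13, k23, hYz⟩ := Finset.card_eq_three.mp hc
    have hcyc : ∃ (y1 y2 y3 : E) (s : E ≃ₐ[ℚ] E), y1 ≠ y2 ∧ y1 ≠ y3 ∧ y2 ≠ y3 ∧
        Y = {y1, y2, y3} ∧ s ζ = ζ ∧ s y1 = y2 ∧ s y2 = y3 ∧ s y3 = y1 := by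
      have n1 : z1 ∈ Y := by rw [hYz]; simp
      have n2 : z2 ∈ Y := by rw [hYz]; simp
      have n3 : z3 ∈ Y := by rw [hYz]; simp
      have hmem : ∀ x ∈ Y, x = z1 ∨ x = z2 ∨ x = z3 := by
        intro x hx
        rw [hYz] at hx
        simpa using hx
      obtain ⟨s, hs, hs12⟩ := htrans z1 n1 z2 n2
      have inj : ∀ (t : E ≃ₐ[ℚ] E) {a b : E}, a ≠ b → t a ≠ t b := fun t a b hab h =>
        hab (t.injective h)
      rcases hmem _ (hstab s hs z2 n2) with h | h | h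
      · -- s swaps z1 and z2
        have hs3 : s z3 = z3 := by
          rcases hmem _ (hstab s hs z3 n3) with h' | h' | h'
          · exact absurd (h'.trans h.symm) (inj s k23.symm)
          · exact absurd (h'.trans hs12.symm) (inj s k13.symm)
          · exact h'
        obtain ⟨t, ht, ht13⟩ := htrans z1 n1 z3 n3
        rcases hmem _ (hstab t ht z3 n3) with h' | h' | h'
        · -- t swaps z1, z3
          have ht2 : t z2 = z2 := by
            rcases hmem _ (hstab t ht z2 n2) with h'' | h'' | h''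
            · exact absurd (h''.trans h'.symm) (inj t k23)
            · exact h''
            · exact absurd (h''.trans ht13.symm) (inj t k12.symm)
          refine ⟨z1, z2, z3, t * s, k12, k13, k23, hYz, ?_, ?_, ?_, ?_⟩
          · rw [AlgEquiv.mul_apply, hs, ht]
          · rw [AlgEquiv.mul_apply, hs12, ht2]
          · rw [AlgEquiv.mul_apply, h, ht13]
          · rw [AlgEquiv.mul_apply, hs3, h']
        · -- t : z1 -> z3 -> z2
          have ht2 : t z2 = z1 := by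
            rcases hmem _ (hstab t ht z2 n2) with h'' | h'' | h''
            · exact h''
            · exact absurd (h''.trans h'.symm) (inj t k23)
            · exact absurd (h''.trans ht13.symm) (inj t k12.symm)
          refine ⟨z1, z3, z2, t, k13, k12, k23.symm, ?_, ht, ht13, h', ht2⟩
          rw [hYz]
          ext x
          simp only [Finset.mem_insert, Finset.mem_singleton]
          tauto
        · exact absurd (h'.trans ht13.symm) (inj t k13.symm)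
      · exact absurd (h.trans hs12.symm) (inj s k12.symm)
      · have hs3 : s z3 = z1 := by
          rcases hmem _ (hstab s hs z3 n3) with h' | h' | h'
          · exact h'
          · exact absurd (h'.trans hs12.symm) (inj s k13.symm)
          · exact absurd (h'.trans h.symm) (inj s k23.symm)
        exact ⟨z1, z2, z3, s, k12, k13, k23, hYz, hs, hs12, h, hs3⟩
    obtain ⟨y1, y2, y3, s, h12, h13, h23, hY, hs, hs1, hs2, hs3⟩ := hcyc
    subst hY
    have m1 : y1 ∈ ({y1, y2, y3} : Finset E) := by simp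
    have m2 : y2 ∈ ({y1, y2, y3} : Finset E) := by simp
    have m3 : y3 ∈ ({y1, y2, y3} : Finset E) := by simp
    have hsum : ∀ F : {y // y ∈ ({y1, y2, y3} : Finset E)} → E,
        ∑ y : {y // y ∈ ({y1, y2, y3} : Finset E)}, F y =
          F ⟨y1, m1⟩ + (F ⟨y2, m2⟩ + F ⟨y3, m3⟩) := by
      intro F
      have : (Finset.univ : Finset {y // y ∈ ({y1, y2, y3} : Finset E)}) =
          {⟨y1, m1⟩, ⟨y2, m2⟩, ⟨y3, m3⟩} := by
        ext ⟨y, hy⟩
        have hy' := hy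
        rw [Finset.mem_insert, Finset.mem_insert, Finset.mem_singleton] at hy'
        rcases hy' with h | h | h <;> simp [h]
      rw [this, Finset.sum_insert (by simpa using ⟨h12, h13⟩),
        Finset.sum_pair (by simpa using h23)]
    have e0 := hTs 1 rfl
    have e1 := hTs s hs
    have e2 := hTs (s * s) (by rw [AlgEquiv.mul_apply, hs, hs])
    rw [hsum] at e0 e1 e2
    simp only [AlgEquiv.one_apply, AlgEquiv.mul_apply, hs1, hs2, hs3] at e0 e1 e2
    have hdet := det3 (y1 := y1) (y2 := y2) (y3 := y3) (n1 := n ⟨y1, m1⟩) (n2 := n ⟨y2, m2⟩)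
      (n3 := n ⟨y3, m3⟩) (T := T) h12 (by linear_combination e0) (by linear_combination e1)
      (by linear_combination e2)
    obtain ⟨q1, q2⟩ := eta3 ι (hn7 ⟨y1, m1⟩) (hn7 ⟨y2, m2⟩) (hn7 ⟨y3, m3⟩) hdet
    refine ⟨n ⟨y1, m1⟩, hn7 _, ?_⟩
    rintro ⟨y, hy⟩
    have hy' := hy
    rw [Finset.mem_insert, Finset.mem_insert, Finset.mem_singleton] at hy'
    rcases hy' with h | h | h
    · subst h
      exact hσ _
    · subst h
      rw [q1]
      exact hσ _
    · subst h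
      rw [q1, q2]
      exact hσ _

end sets

end Pool.Agent.Q168.LA
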