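import Mathlib
import Pool.Agent.Q168.LA.Gamma

/-!
# The nonzero algebraic integer divisible by seven
-/

set_option autoImplicit false

namespace Pool.Agent.Q168.LA

open Polynomial Module

variable {E : Type} [Field E] [NumberField E] [IsGalois ℚ E]

theorem gamma_exists (ι : E →+* ℂ) {N : ℕ} [NeZero N] {ζ : E} (hζ : IsPrimitiveRoot ζ N)
    {Y : Finset E} (hcard : Y.card = 2 ∨ Y.card = 3) (h0 : ∀ y ∈ Y, y ≠ 0)
    (hint : ∀ y ∈ Y, IsIntegral ℤ y) (hinv : ∀ y ∈ Y, IsIntegral ℤ y⁻¹)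
    (hroot : ∀ y ∈ Y, ∀ n : ℕ, 0 < n → y ^ n ≠ 1)
    (hstab : ∀ s : E ≃ₐ[ℚ] E, s ζ = ζ → ∀ y ∈ Y, s y ∈ Y)
    (htrans : ∀ y ∈ Y, ∀ y' ∈ Y, ∃ s : E ≃ₐ[ℚ] E, s ζ = ζ ∧ s y = y')
    (hc : ∃ n : ℕ, 0 < n ∧ (∏ y ∈ Y, y) ^ n = 1)
    (hmin : 7 ∣ N → ∀ b : E, (∃ n : ℕ, 0 < n ∧ b ^ n = 1) →
      (∀ s : E ≃ₐ[ℚ] E, s ζ = ζ → s b = b) →
      ∃ σ : E ≃ₐ[ℚ] E, σ (ζ ^ 7) = ζ ^ 7 ∧ ∃ y ∈ Y, ∀ y' ∈ Y, σ (y / b) ≠ y' / b) :
    ∃ (σ : E ≃ₐ[ℚ] E) (e : ℕ) (δ : E), (e = 1 ∨ e = 7) ∧ IsIntegral ℤ δ ∧ δ ≠ 0 ∧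
      (∑ y ∈ Y, y ^ 7 - σ (∑ y ∈ Y, y ^ e) = 7 * δ ∨
        ∑ y ∈ Y, (y⁻¹) ^ 7 - σ (∑ y ∈ Y, (y⁻¹) ^ e) = 7 * δ) := by
  classical
  have hsumfix : ∀ s : E ≃ₐ[ℚ] E, s ζ = ζ → s (∑ y ∈ Y, id y) = ∑ y ∈ Y, id y := by
    intro s hs
    rw [map_sum]
    exact sum_stable s (hstab s hs) id
  have hsuminv : ∀ s : E ≃ₐ[ℚ] E, s ζ = ζ → s (∑ y ∈ Y, y⁻¹) = ∑ y ∈ Y, y⁻¹ := by
    intro s hs
    rw [map_sum]
    have := sum_stable s (hstab s hs) (fun y => y⁻¹)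
    rw [← this]
    exact Finset.sum_congr rfl fun y _ => map_inv₀ s y
  have hprodfix : ∀ s : E ≃ₐ[ℚ] E, s ζ = ζ → s (∏ y ∈ Y, y) = ∏ y ∈ Y, y := by
    intro s hs
    rw [map_prod]
    exact prod_stable s (hstab s hs) id
  have hc1 := cong hζ Y id hint hsumfix
  have hc2 := cong hζ Y (fun y => y⁻¹) hinv hsuminv
  have h7' : (7 : E) ≠ 0 := by norm_num
  -- combination of the two possibilities
  have comb : ∀ (σ : E ≃ₐ[ℚ] E) (e : ℕ), (e = 1 ∨ e = 7) →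
      (∃ δ : E, IsIntegral ℤ δ ∧ ∑ y ∈ Y, y ^ 7 - σ (∑ y ∈ Y, y ^ e) = 7 * δ) →
      (∃ δ : E, IsIntegral ℤ δ ∧ ∑ y ∈ Y, (y⁻¹) ^ 7 - σ (∑ y ∈ Y, (y⁻¹) ^ e) = 7 * δ) →
      (∑ y ∈ Y, y ^ 7 = ∑ y ∈ Y, (σ y) ^ e →
        ∑ y ∈ Y, (y ^ 7)⁻¹ = ∑ y ∈ Y, ((σ y) ^ e)⁻¹ → False) →
      ∃ (δ : E), IsIntegral ℤ δ ∧ δ ≠ 0 ∧
      (∑ y ∈ Y, y ^ 7 - σ (∑ y ∈ Y, y ^ e) = 7 * δ ∨
        ∑ y ∈ Y, (y⁻¹) ^ 7 - σ (∑ y ∈ Y, (y⁻¹) ^ e) = 7 * δ) := by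
    intro σ e _ ⟨δ, hδ1, hδ2⟩ ⟨δ', hδ1', hδ2'⟩ hF
    by_cases hδ : δ = 0
    · by_cases hδ' : δ' = 0
      · exfalso
        apply hF
        · rw [hδ, mul_zero, sub_eq_zero, map_sum] at hδ2
          rw [hδ2]
          exact Finset.sum_congr rfl fun y _ => map_pow σ y e
        · rw [hδ', mul_zero, sub_eq_zero, map_sum] at hδ2'
          have h1 : ∑ y ∈ Y, (y ^ 7)⁻¹ = ∑ y ∈ Y, (y⁻¹) ^ 7 :=
            Finset.sum_congr rfl fun y _ => (inv_pow y 7).symm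
          rw [h1, hδ2']
          refine Finset.sum_congr rfl fun y _ => ?_
          rw [map_pow, map_inv₀, inv_pow]
      · exact ⟨δ', hδ1', hδ', Or.inr hδ2'⟩
    · exact ⟨δ, hδ1, hδ, Or.inl hδ2⟩
  by_cases h7 : 7 ∣ N
  · -- ramified case
    obtain ⟨j, k, hjk⟩ : ∃ j k : ℕ, Y.card * j = 7 * k + 1 := by
      rcases hcard with h | h
      · exact ⟨4, 1, by rw [h]⟩
      · exact ⟨5, 2, by rw [h]⟩
    set c := ∏ y ∈ Y, y with hcdef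
    obtain ⟨σ, hσ, y0, hy0, hy0'⟩ := hmin h7 (c ^ j) (root_pow hc j) (by
      intro s hs
      rw [map_pow, hprodfix s hs])
    obtain ⟨δ, h1, h2, h3⟩ := comb σ 7 (Or.inr rfl) (hc1.2 σ hσ) (hc2.2 σ hσ) (by
      intro e1 e2
      have e3 : ∏ y ∈ Y, y ^ 7 = ∏ y ∈ Y, (σ y) ^ 7 := by
        rw [Finset.prod_pow, Finset.prod_pow, ← map_prod]
        exact ((root_action ι hζ hc hprodfix σ).2 hσ).symm
      have hσ0 : ∀ y ∈ Y, σ y ≠ 0 := fun y hy h => h0 y hy (by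
        rwa [map_eq_zero_iff σ σ.injective] at h)
      have hm := mset Y hcard (fun y => y ^ 7) (fun y => (σ y) ^ 7)
        (fun y hy => pow_ne_zero 7 (h0 y hy)) (fun y hy => pow_ne_zero 7 (hσ0 y hy)) e1 e2 e3
      obtain ⟨e, he⟩ := exists_matching Y _ _ hm
      obtain ⟨η, hη, hη2⟩ := eta_exists ι hζ h7 hcard h0 hint hstab htrans σ e he
      have hη0 : η ≠ 0 := by
        rintro rfl
        norm_num at hη
      have hσc : σ c = η ^ Y.card * c := by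
        rw [hcdef, map_prod, ← Finset.prod_coe_sort Y (fun y => σ y),
          ← Equiv.prod_comp e (fun y : {y // y ∈ Y} => σ y.1),
          ← Finset.prod_coe_sort Y (fun y => y)]
        rw [Finset.prod_congr rfl (fun y _ => hη2 y), Finset.prod_mul_distrib,
          Finset.prod_const, Finset.card_univ, Fintype.card_coe]
      have hσb : σ (c ^ j) = η * c ^ j := by
        rw [map_pow, hσc, mul_pow, ← pow_mul, hjk, pow_succ, pow_mul, hη, one_pow, one_mul]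
      have hx := hη2 (e.symm ⟨y0, hy0⟩)
      rw [Equiv.apply_symm_apply] at hx
      apply hy0' (e.symm ⟨y0, hy0⟩).1 (e.symm ⟨y0, hy0⟩).2
      have hx' : σ y0 = η * (e.symm ⟨y0, hy0⟩).1 := hx
      rw [map_div₀, hσb, hx', mul_div_mul_left _ _ hη0])
    exact ⟨σ, 7, δ, Or.inr rfl, h1, h2, h3⟩
  · -- unramified case
    obtain ⟨σ, hσ⟩ := exists_frob hζ h7
    have hc1' := hc1.1 σ hσ
    have hc2' := hc2.1 σ hσ
    obtain ⟨δ, h1, h2, h3⟩ := comb σ 1 (Or.inl rfl) (by simpa using hc1') (by simpa using hc2') (by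
      intro e1 e2
      simp only [pow_one] at e1 e2
      have e3 : ∏ y ∈ Y, y ^ 7 = ∏ y ∈ Y, σ y := by
        rw [Finset.prod_pow, ← map_prod]
        exact ((root_action ι hζ hc hprodfix σ).1 hσ).symm
      have hσ0 : ∀ y ∈ Y, σ y ≠ 0 := fun y hy h => h0 y hy (by
        rwa [map_eq_zero_iff σ σ.injective] at h)
      have hm := mset Y hcard (fun y => y ^ 7) (fun y => σ y)
        (fun y hy => pow_ne_zero 7 (h0 y hy)) hσ0 e1 e2 e3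
      obtain ⟨e, he⟩ := exists_matching Y _ _ hm
      have hne : Y.Nonempty := by
        rw [← Finset.card_pos]
        rcases hcard with h | h <;> omega
      obtain ⟨y, hy⟩ := hne
      obtain ⟨n, hn, hyn⟩ := root_of_frob σ (orderOf_pos σ) h0 (fun y hy =>
        ⟨(e ⟨y, hy⟩).1, (e ⟨y, hy⟩).2, (he ⟨y, hy⟩).symm⟩) y hy
      exact hroot y hy n hn hyn)
    exact ⟨σ, 1, δ, Or.inl rfl, h1, h2, h3⟩

end Pool.Agent.Q168.LA
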