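import Mathlib
import Pool.Agent.Q168.LA.GammaMain

/-!
# Archimedean bounds and the product formula
-/

set_option autoImplicit false

namespace Pool.Agent.Q168.LA

open Polynomial Module

lemma sum_le_of_one_le {ι : Type} (s : Finset ι) (hs : s.Nonempty) (r : ι → ℝ)
    (hr : ∀ i ∈ s, 1 ≤ r i) : 1 ≤ ∏ i ∈ s, r i ∧ ∑ i ∈ s, r i ≤ ∏ i ∈ s, r i + (s.card - 1) := by
  classical
  induction hs using Finset.Nonempty.cons_induction with
  | singleton a =>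
    simp only [Finset.prod_singleton, Finset.sum_singleton, Finset.card_singleton, Nat.cast_one,
      sub_self, add_zero, le_refl, and_true]
    exact hr a (by simp)
  | cons a s ha hs ih =>
    obtain ⟨h1, h2⟩ := ih (fun i hi => hr i (Finset.mem_cons_of_mem hi))
    have h3 := hr a (Finset.mem_cons_self a s)
    rw [Finset.prod_cons, Finset.sum_cons, Finset.card_cons]
    push_cast
    refine ⟨one_le_mul_of_one_le_of_one_le h3 h1, ?_⟩
    nlinarith [mul_nonneg (sub_nonneg.mpr h3) (sub_nonneg.mpr h1)]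

lemma sum_le_of_le_one {ι : Type} (s : Finset ι) (hs : s.Nonempty) (r : ι → ℝ)
    (h0 : ∀ i ∈ s, 0 ≤ r i) (hr : ∀ i ∈ s, r i ≤ 1) :
    (∏ i ∈ s, r i ≤ 1 ∧ 0 ≤ ∏ i ∈ s, r i) ∧ ∑ i ∈ s, r i ≤ ∏ i ∈ s, r i + (s.card - 1) := by
  classical
  induction hs using Finset.Nonempty.cons_induction with
  | singleton a =>
    simp only [Finset.prod_singleton, Finset.sum_singleton, Finset.card_singleton, Nat.cast_one,
      sub_self, add_zero, le_refl, and_true]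
    exact ⟨hr a (by simp), h0 a (by simp)⟩
  | cons a s ha hs ih =>
    obtain ⟨⟨h1, h1'⟩, h2⟩ := ih (fun i hi => h0 i (Finset.mem_cons_of_mem hi))
      (fun i hi => hr i (Finset.mem_cons_of_mem hi))
    have h3 := hr a (Finset.mem_cons_self a s)
    have h4 := h0 a (Finset.mem_cons_self a s)
    rw [Finset.prod_cons, Finset.sum_cons, Finset.card_cons]
    push_cast
    refine ⟨⟨mul_le_one₀ h3 h1' h1, mul_nonneg h4 h1'⟩, ?_⟩
    nlinarith [mul_nonneg (sub_nonneg.mpr h3) (sub_nonneg.mpr h1)]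

/-- A sum of positive numbers with product one. -/
lemma sum_le_mu {ι : Type} (s : Finset ι) (hs : s.Nonempty) (r : ι → ℝ)
    (h0 : ∀ i ∈ s, 0 < r i) (h1 : ∏ i ∈ s, r i = 1) :
    1 ≤ ∏ i ∈ s, max 1 (r i) ∧
    ∑ i ∈ s, r i ≤ ∏ i ∈ s, max 1 (r i) + (∏ i ∈ s, max 1 (r i))⁻¹ + (s.card - 2) := by
  obtain ⟨a1, a2⟩ := sum_le_of_one_le s hs (fun i => max 1 (r i)) (fun i _ => le_max_left _ _)
  obtain ⟨b1, b2⟩ := sum_le_of_le_one s hs (fun i => min 1 (r i))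
    (fun i hi => le_min zero_le_one (h0 i hi).le) (fun i _ => min_le_left _ _)
  refine ⟨a1, ?_⟩
  have h2 : ∏ i ∈ s, min 1 (r i) = (∏ i ∈ s, max 1 (r i))⁻¹ := by
    apply eq_inv_of_mul_eq_one_left
    rw [← Finset.prod_mul_distrib]
    refine (Finset.prod_congr rfl fun i _ => ?_).trans h1
    rw [min_mul_max, one_mul]
  have h3 : ∑ i ∈ s, r i = ∑ i ∈ s, max 1 (r i) + ∑ i ∈ s, min 1 (r i) - s.card := by
    rw [← Finset.sum_add_distrib, Finset.cast_card, ← Finset.sum_sub_distrib]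
    refine Finset.sum_congr rfl fun i _ => ?_
    have := min_add_max 1 (r i)
    linarith
  rw [h2] at b2
  rw [h3]
  linarith

lemma cosh_mono {x : ℝ} (hx : 1 ≤ x) : x + x⁻¹ ≤ x ^ 7 + (x⁻¹) ^ 7 := by
  set u := x⁻¹ with hu
  have hx0 : 0 < x := by linarith
  have hu0 : 0 < u := by positivity
  have hu1 : u ≤ 1 := inv_le_one_of_one_le₀ hx
  have h3 : x * u = 1 := mul_inv_cancel₀ (by linarith)
  have h4 : 1 ≤ x ^ 6 := one_le_pow₀ hx
  have h5 : u ^ 7 ≤ x := by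
    have : u ^ 7 ≤ 1 := pow_le_one₀ hu0.le hu1
    linarith
  have h6 : u = x ^ 6 * u ^ 7 := by
    calc u = (x * u) ^ 6 * u := by rw [h3]; ring
      _ = x ^ 6 * u ^ 7 := by ring
  have h7 : 0 ≤ (x ^ 6 - 1) * (x - u ^ 7) := mul_nonneg (by linarith) (by linarith)
  nlinarith

lemma pow_max {r : ℝ} (hr : 0 ≤ r) (e : ℕ) : max 1 (r ^ e) = (max 1 r) ^ e := by
  rcases le_total 1 r with h | h
  · rw [max_eq_right h, max_eq_right (one_le_pow₀ h)]
  · rw [max_eq_left h, max_eq_left (pow_le_one₀ hr h), one_pow]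

/-- The bound for the power sums. -/
lemma power_sum_le {ι : Type} (s : Finset ι) (hs : s.Nonempty) (r : ι → ℝ)
    (h0 : ∀ i ∈ s, 0 < r i) (h1 : ∏ i ∈ s, r i = 1) {e : ℕ} (he : e = 1 ∨ e = 7) :
    ∑ i ∈ s, r i ^ e ≤
      (∏ i ∈ s, max 1 (r i)) ^ 7 + ((∏ i ∈ s, max 1 (r i))⁻¹) ^ 7 + (s.card - 2) := by
  have h2 := (sum_le_mu s hs (fun i => r i ^ e) (fun i hi => pow_pos (h0 i hi) e)
    (by rw [Finset.prod_pow, h1, one_pow])).2
  have h3 : ∏ i ∈ s, max 1 (r i ^ e) = (∏ i ∈ s, max 1 (r i)) ^ e := by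
    rw [← Finset.prod_pow]
    exact Finset.prod_congr rfl fun i hi => pow_max (h0 i hi).le e
  rw [h3, ← inv_pow] at h2
  have h4 := (sum_le_mu s hs r h0 h1).1
  rcases he with rfl | rfl
  · have h5 := cosh_mono h4
    rw [pow_one, pow_one] at h2
    linarith
  · exact h2

/-- The weight `(x^7 + x^(-7) + 2 m - 2) / (2 m)`. -/
noncomputable def V (m x : ℝ) : ℝ := (x ^ 7 + (x⁻¹) ^ 7 + 2 * m - 2) / (2 * m)

lemma two_le_cosh {x : ℝ} (hx : 0 < x) : 2 ≤ x ^ 7 + (x⁻¹) ^ 7 := by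
  have h1 : 0 < x ^ 7 := by positivity
  rw [inv_pow]
  have h2 : x ^ 7 * (x ^ 7)⁻¹ = 1 := mul_inv_cancel₀ h1.ne'
  have h3 : 0 < (x ^ 7)⁻¹ := by positivity
  nlinarith [sq_nonneg (x ^ 7 - (x ^ 7)⁻¹)]

lemma one_le_V {m x : ℝ} (hm : 0 < m) (hx : 0 < x) : 1 ≤ V m x := by
  have := two_le_cosh hx
  unfold V
  rw [le_div_iff₀ (by positivity)]
  linarith

lemma V_bound {m x x' a a' : ℝ} (hm : 0 < m) (hx : 0 < x) (hx' : 0 < x')
    (h1 : a ≤ x ^ 7 + (x⁻¹) ^ 7 + (m - 2)) (h2 : a' ≤ x' ^ 7 + (x'⁻¹) ^ 7 + (m - 2)) :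
    a + a' ≤ 2 * m * (V m x * V m x') := by
  have e1 := two_le_cosh hx
  have e2 := two_le_cosh hx'
  set A := x ^ 7 + (x⁻¹) ^ 7 with hA
  set A' := x' ^ 7 + (x'⁻¹) ^ 7 with hA'
  have e3 : 2 * m * (V m x * V m x') = (A + 2 * m - 2) * (A' + 2 * m - 2) / (2 * m) := by
    have hV : ∀ z, V m z = (z ^ 7 + (z⁻¹) ^ 7 + 2 * m - 2) / (2 * m) := fun z => rfl
    rw [hV, hV, ← hA, ← hA']
    field_simp
  rw [e3, le_div_iff₀ (by positivity)]
  nlinarith [mul_nonneg (sub_nonneg.mpr e1) (sub_nonneg.mpr e2)]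

lemma V_mul {m a b : ℝ} (hm : 1 ≤ m) (ha : 1 ≤ a) (hb : 1 ≤ b) :
    V m a * V m b ≤ V m (a * b) := by
  have hx : 1 ≤ a ^ 7 := one_le_pow₀ ha
  have hy : 1 ≤ b ^ 7 := one_le_pow₀ hb
  have e1 := two_le_cosh (show 0 < a by linarith)
  have e2 := two_le_cosh (show 0 < b by linarith)
  have hx' : (a⁻¹) ^ 7 ≤ 1 := pow_le_one₀ (by positivity) (inv_le_one_of_one_le₀ ha)
  have hy' : (b⁻¹) ^ 7 ≤ 1 := pow_le_one₀ (by positivity) (inv_le_one_of_one_le₀ hb)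
  have e3 : V m a * V m b = ((a ^ 7 + (a⁻¹) ^ 7 + 2 * m - 2) * (b ^ 7 + (b⁻¹) ^ 7 + 2 * m - 2) /
      (2 * m)) / (2 * m) := by
    unfold V
    field_simp
  rw [e3]
  unfold V
  rw [div_le_div_iff_of_pos_right (by positivity), div_le_iff₀ (by positivity), mul_pow, mul_inv,
    mul_pow]
  have hxx : a ^ 7 * (a⁻¹) ^ 7 = 1 := by rw [← mul_pow, mul_inv_cancel₀ (by linarith), one_pow]
  have hyy : b ^ 7 * (b⁻¹) ^ 7 = 1 := by rw [← mul_pow, mul_inv_cancel₀ (by linarith), one_pow]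
  set x := a ^ 7
  set y := b ^ 7
  set x' := (a⁻¹) ^ 7
  set y' := (b⁻¹) ^ 7
  have k1 : 0 ≤ (x + x' - 2) * (y + y' - 2) := mul_nonneg (by linarith) (by linarith)
  have k2 : 0 ≤ (x - x') * (y - y') := mul_nonneg (by linarith) (by linarith)
  nlinarith [mul_nonneg (sub_nonneg.mpr hm) k2]

lemma V_mono {m a b : ℝ} (hm : 0 < m) (ha : 1 ≤ a) (hab : a ≤ b) : V m a ≤ V m b := by
  have hx : 1 ≤ a ^ 7 := one_le_pow₀ ha
  have hxy : a ^ 7 ≤ b ^ 7 := pow_le_pow_left₀ (by linarith) hab 7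
  unfold V
  rw [div_le_div_iff_of_pos_right (by positivity), inv_pow, inv_pow]
  set x := a ^ 7
  set y := b ^ 7
  have hx0 : 0 < x := by linarith
  have hy0 : 0 < y := by linarith
  have h1 : x + x⁻¹ ≤ y + y⁻¹ := by
    have h2 : y + y⁻¹ - (x + x⁻¹) = (y - x) * (x * y - 1) / (x * y) := by
      field_simp
      ring
    have h3 : 0 ≤ (y - x) * (x * y - 1) / (x * y) := by
      apply div_nonneg (mul_nonneg (by linarith) (by nlinarith)) (by positivity)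
    linarith
  linarith

lemma V_prod {m : ℝ} (hm : 1 ≤ m) {ι : Type} (s : Finset ι) (r : ι → ℝ)
    (hr : ∀ i ∈ s, 1 ≤ r i) :
    (1 ≤ ∏ i ∈ s, r i) ∧ ∏ i ∈ s, V m (r i) ≤ V m (∏ i ∈ s, r i) := by
  classical
  induction s using Finset.induction_on with
  | empty =>
    simp only [Finset.prod_empty, le_refl, true_and]
    exact one_le_V (by linarith) one_pos
  | insert a s ha ih =>
    obtain ⟨h1, h2⟩ := ih (fun i hi => hr i (Finset.mem_insert_of_mem hi))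
    have h3 := hr a (Finset.mem_insert_self a s)
    rw [Finset.prod_insert ha, Finset.prod_insert ha]
    refine ⟨one_le_mul_of_one_le_of_one_le h3 h1, ?_⟩
    have h4 : 0 ≤ V m (r a) := by
      linarith [one_le_V (show 0 < m by linarith) (show 0 < r a by linarith)]
    exact (mul_le_mul_of_nonneg_left h2 h4).trans (V_mul hm h3 h1)

variable {E : Type} [Field E] [NumberField E] [IsGalois ℚ E]

/-- The measure of a block. -/
noncomputable def mu (ι : E →+* ℂ) (Y : Finset E) (s : E ≃ₐ[ℚ] E) : ℝ :=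
  ∏ y ∈ Y, max 1 ‖ι (s y)‖

omit [IsGalois ℚ E] in
lemma one_le_mu (ι : E →+* ℂ) (Y : Finset E) (s : E ≃ₐ[ℚ] E) : 1 ≤ mu ι Y s := by
  unfold mu
  exact Finset.prod_induction _ (fun x : ℝ => 1 ≤ x)
    (fun a b ha hb => one_le_mul_of_one_le_of_one_le ha hb) le_rfl (fun y _ => le_max_left _ _)

theorem avg_ineq (ι : E →+* ℂ) {Y : Finset E} (hne : Y.Nonempty) (h0 : ∀ y ∈ Y, y ≠ 0)
    (hc : ∃ n : ℕ, 0 < n ∧ (∏ y ∈ Y, y) ^ n = 1)
    (hγ : ∃ (σ : E ≃ₐ[ℚ] E) (e : ℕ) (δ : E), (e = 1 ∨ e = 7) ∧ IsIntegral ℤ δ ∧ δ ≠ 0 ∧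
      (∑ y ∈ Y, y ^ 7 - σ (∑ y ∈ Y, y ^ e) = 7 * δ ∨
        ∑ y ∈ Y, (y⁻¹) ^ 7 - σ (∑ y ∈ Y, (y⁻¹) ^ e) = 7 * δ)) :
    (7 : ℝ) ^ Fintype.card (E ≃ₐ[ℚ] E) ≤ (2 * Y.card) ^ Fintype.card (E ≃ₐ[ℚ] E) *
      (∏ s : E ≃ₐ[ℚ] E, V Y.card (mu ι Y s)) ^ 2 := by
  obtain ⟨σ, e, δ, he, hδ, hδ0, hcase⟩ := hγ
  have hcard : 0 < (Y.card : ℝ) := by
    exact_mod_cast hne.card_pos
  have hpos : ∀ (s : E ≃ₐ[ℚ] E), ∀ y ∈ Y, 0 < ‖ι (s y)‖ := by
    intro s y hy
    rw [norm_pos_iff, map_ne_zero_iff ι ι.injective, map_ne_zero_iff s s.injective]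
    exact h0 y hy
  have hprod : ∀ s : E ≃ₐ[ℚ] E, ∏ y ∈ Y, ‖ι (s y)‖ = 1 := by
    intro s
    rw [← norm_prod, ← map_prod, ← map_prod]
    exact norm_root ι (root_map s hc)
  have hprod' : ∀ s : E ≃ₐ[ℚ] E, ∏ y ∈ Y, ‖ι (s y)‖⁻¹ = 1 := by
    intro s
    rw [Finset.prod_inv_distrib, hprod, inv_one]
  have hmu' : ∀ s : E ≃ₐ[ℚ] E, ∏ y ∈ Y, max 1 ‖ι (s y)‖⁻¹ = mu ι Y s := by
    intro s
    unfold mu
    have h1 : ∏ y ∈ Y, max 1 ‖ι (s y)‖⁻¹ * ‖ι (s y)‖ = ∏ y ∈ Y, max 1 ‖ι (s y)‖ := by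
      refine Finset.prod_congr rfl fun y hy => ?_
      have := hpos s y hy
      rw [max_mul_of_nonneg _ _ this.le, one_mul, inv_mul_cancel₀ this.ne', max_comm]
    rw [← h1, Finset.prod_mul_distrib, hprod, mul_one]
  have hγ0 : (7 : E) * δ ≠ 0 := mul_ne_zero (by norm_num) hδ0
  have h1 := seven_pow_le ι (γ := 7 * δ) rfl hδ hγ0
  have hb : ∀ s : E ≃ₐ[ℚ] E, ‖ι (s (7 * δ))‖ ≤
      2 * Y.card * (V Y.card (mu ι Y s) * V Y.card (mu ι Y (s * σ))) := by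
    intro s
    have hm1 : 0 < mu ι Y s := by linarith [one_le_mu ι Y s]
    have hm2 : 0 < mu ι Y (s * σ) := by linarith [one_le_mu ι Y (s * σ)]
    rcases hcase with h | h
    · have k1 := power_sum_le Y hne (fun y => ‖ι (s y)‖) (hpos s) (hprod s)
        (e := 7) (Or.inr rfl)
      have k2 := power_sum_le Y hne (fun y => ‖ι ((s * σ) y)‖) (hpos (s * σ)) (hprod (s * σ))
        (e := e) he
      refine le_trans ?_ (V_bound hcard hm1 hm2 k1 k2)
      rw [← h, map_sub, map_sub]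
      refine (norm_sub_le _ _).trans (add_le_add ?_ ?_)
      · rw [map_sum, map_sum]
        refine (norm_sum_le _ _).trans (le_of_eq (Finset.sum_congr rfl fun y _ => ?_))
        rw [map_pow, map_pow, norm_pow]
      · rw [map_sum, map_sum, map_sum]
        refine (norm_sum_le _ _).trans (le_of_eq (Finset.sum_congr rfl fun y _ => ?_))
        rw [map_pow, map_pow, map_pow, norm_pow, AlgEquiv.mul_apply]
    · have k1 := power_sum_le Y hne (fun y => ‖ι (s y)‖⁻¹)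
        (fun y hy => inv_pos.mpr (hpos s y hy)) (hprod' s) (e := 7) (Or.inr rfl)
      have k2 := power_sum_le Y hne (fun y => ‖ι ((s * σ) y)‖⁻¹)
        (fun y hy => inv_pos.mpr (hpos (s * σ) y hy)) (hprod' (s * σ)) (e := e) he
      simp only [hmu'] at k1 k2
      refine le_trans ?_ (V_bound hcard hm1 hm2 k1 k2)
      rw [← h, map_sub, map_sub]
      refine (norm_sub_le _ _).trans (add_le_add ?_ ?_)
      · rw [map_sum, map_sum]
        refine (norm_sum_le _ _).trans (le_of_eq (Finset.sum_congr rfl fun y _ => ?_))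
        rw [map_pow, map_pow, map_inv₀, map_inv₀, norm_pow, norm_inv]
      · rw [map_sum, map_sum, map_sum]
        refine (norm_sum_le _ _).trans (le_of_eq (Finset.sum_congr rfl fun y _ => ?_))
        rw [map_pow, map_pow, map_pow, map_inv₀, map_inv₀, map_inv₀, norm_pow, norm_inv,
          AlgEquiv.mul_apply]
  refine h1.trans ((Finset.prod_le_prod (fun s _ => norm_nonneg _) (fun s _ => hb s)).trans
    (le_of_eq ?_))
  rw [Finset.prod_mul_distrib, Finset.prod_const, Finset.card_univ, Finset.prod_mul_distrib]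
  have h2 : ∏ s : E ≃ₐ[ℚ] E, V Y.card (mu ι Y (s * σ)) =
      ∏ s : E ≃ₐ[ℚ] E, V Y.card (mu ι Y s) :=
    Fintype.prod_equiv (Equiv.mulRight σ) _ _ (fun s => rfl)
  rw [h2]
  ring

end Pool.Agent.Q168.LA
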