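import Mathlib
import Pool.Agent.Q168.LA.Bound

/-!
# Blocks of conjugates
-/

set_option autoImplicit false

namespace Pool.Agent.Q168.LA

open Polynomial Module

variable {E : Type} [Field E] [NumberField E]

open Classical in
/-- The conjugates of `x` over the field of `z`. -/
noncomputable def blk (z x : E) : Finset E :=
  (Finset.univ.filter (fun s : E ≃ₐ[ℚ] E => s z = z)).image (fun s => s x)

lemma mem_blk {z x y : E} : y ∈ blk z x ↔ ∃ s : E ≃ₐ[ℚ] E, s z = z ∧ s x = y := by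
  classical
  unfold blk
  rw [Finset.mem_image]
  constructor
  · rintro ⟨s, hs, rfl⟩
    exact ⟨s, (Finset.mem_filter.mp hs).2, rfl⟩
  · rintro ⟨s, hs, rfl⟩
    exact ⟨s, Finset.mem_filter.mpr ⟨Finset.mem_univ _, hs⟩, rfl⟩

lemma self_mem_blk (z x : E) : x ∈ blk z x := mem_blk.mpr ⟨1, rfl, rfl⟩

lemma symm_fix {z : E} {s : E ≃ₐ[ℚ] E} (hs : s z = z) : s⁻¹ z = z := by
  have : s⁻¹ (s z) = z := AlgEquiv.symm_apply_apply s z
  rwa [hs] at this

lemma blk_eq_of_mem {z x y : E} (h : y ∈ blk z x) : blk z y = blk z x := by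
  obtain ⟨s, hs, rfl⟩ := mem_blk.mp h
  ext w
  rw [mem_blk, mem_blk]
  constructor
  · rintro ⟨t, ht, rfl⟩
    exact ⟨t * s, by rw [AlgEquiv.mul_apply, hs, ht], rfl⟩
  · rintro ⟨t, ht, rfl⟩
    refine ⟨t * s⁻¹, by rw [AlgEquiv.mul_apply, symm_fix hs, ht], ?_⟩
    rw [AlgEquiv.mul_apply]
    congr 1
    exact AlgEquiv.symm_apply_apply s x

lemma blk_stable {z x : E} {s : E ≃ₐ[ℚ] E} (hs : s z = z) {y : E} (hy : y ∈ blk z x) :
    s y ∈ blk z x := by
  obtain ⟨t, ht, rfl⟩ := mem_blk.mp hy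
  exact mem_blk.mpr ⟨s * t, by rw [AlgEquiv.mul_apply, ht, hs], rfl⟩

lemma blk_trans {z x y y' : E} (hy : y ∈ blk z x) (hy' : y' ∈ blk z x) :
    ∃ s : E ≃ₐ[ℚ] E, s z = z ∧ s y = y' := by
  rw [← blk_eq_of_mem hy] at hy'
  exact mem_blk.mp hy'

open Classical in
lemma blk_map {N : ℕ} [NeZero N] {z : E} (hz : IsPrimitiveRoot z N) (s : E ≃ₐ[ℚ] E) (x : E) :
    (blk z x).image s = blk z (s x) := by
  ext w
  rw [Finset.mem_image, mem_blk]
  constructor
  · rintro ⟨y, hy, rfl⟩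
    obtain ⟨t, ht, rfl⟩ := mem_blk.mp hy
    refine ⟨s * t * s⁻¹, ?_, ?_⟩
    · rw [AlgEquiv.mul_apply, AlgEquiv.mul_apply]
      obtain ⟨a, ha⟩ := map_root hz s⁻¹
      have h1 : s (s⁻¹ z) = z := AlgEquiv.apply_symm_apply s z
      rw [ha, map_pow, ht, ← ha, h1]
    · rw [AlgEquiv.mul_apply, AlgEquiv.mul_apply]
      congr 2
      exact AlgEquiv.symm_apply_apply s x
  · rintro ⟨t, ht, rfl⟩
    refine ⟨(s⁻¹ * t * s) x, mem_blk.mpr ⟨s⁻¹ * t * s, ?_, rfl⟩, ?_⟩
    · rw [AlgEquiv.mul_apply, AlgEquiv.mul_apply]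
      obtain ⟨a, ha⟩ := map_root hz s
      have h1 : s⁻¹ (s z) = z := AlgEquiv.symm_apply_apply s z
      rw [ha, map_pow, ht, ← ha, h1]
    · rw [AlgEquiv.mul_apply, AlgEquiv.mul_apply]
      exact AlgEquiv.apply_symm_apply s _

open Classical in
/-- The set of blocks. -/
noncomputable def blocks (z x : E) : Finset (Finset E) :=
  Finset.univ.image (fun s : E ≃ₐ[ℚ] E => blk z (s x))

open Classical in
/-- The order of the stabilizer. -/
noncomputable def stab (z x : E) : ℕ :=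
  (Finset.univ.filter (fun s : E ≃ₐ[ℚ] E => blk z (s x) = blk z x)).card

lemma stab_pos (z x : E) : 0 < stab z x := by
  classical
  unfold stab
  rw [Finset.card_pos]
  exact ⟨1, by rw [Finset.mem_filter]; exact ⟨Finset.mem_univ _, rfl⟩⟩

open Classical in
lemma fiber_card {N : ℕ} [NeZero N] {z : E} (hz : IsPrimitiveRoot z N) (x : E)
    (s0 : E ≃ₐ[ℚ] E) :
    (Finset.univ.filter (fun s : E ≃ₐ[ℚ] E => blk z (s x) = blk z (s0 x))).card = stab z x := by
  unfold stab
  refine Finset.card_bij (fun s _ => s0⁻¹ * s) ?_ ?_ ?_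
  · intro s hs
    rw [Finset.mem_filter] at hs ⊢
    refine ⟨Finset.mem_univ _, ?_⟩
    rw [AlgEquiv.mul_apply, ← blk_map hz s0⁻¹, hs.2, blk_map hz s0⁻¹]
    congr 1
    exact AlgEquiv.symm_apply_apply s0 x
  · intro a _ b _ hab
    exact mul_left_cancel hab
  · intro s hs
    rw [Finset.mem_filter] at hs
    refine ⟨s0 * s, ?_, ?_⟩
    · rw [Finset.mem_filter]
      refine ⟨Finset.mem_univ _, ?_⟩
      rw [AlgEquiv.mul_apply, ← blk_map hz s0, hs.2, blk_map hz s0]
    · rw [inv_mul_cancel_left]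

lemma prod_blocks {N : ℕ} [NeZero N] {z : E} (hz : IsPrimitiveRoot z N) (x : E)
    (F : Finset E → ℝ) :
    ∏ s : E ≃ₐ[ℚ] E, F (blk z (s x)) = (∏ C ∈ blocks z x, F C) ^ stab z x := by
  classical
  unfold blocks
  rw [Finset.prod_comp (fun C => F C) (fun s : E ≃ₐ[ℚ] E => blk z (s x)), ← Finset.prod_pow]
  refine Finset.prod_congr rfl fun C hC => ?_
  obtain ⟨s0, -, rfl⟩ := Finset.mem_image.mp hC
  congr 1
  convert fiber_card hz x s0 using 2

lemma card_blocks {N : ℕ} [NeZero N] {z : E} (hz : IsPrimitiveRoot z N) (x : E) :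
    Fintype.card (E ≃ₐ[ℚ] E) = (blocks z x).card * stab z x := by
  have h := prod_blocks hz x (fun _ => 2)
  rw [Finset.prod_const, Finset.prod_const, ← pow_mul, Finset.card_univ] at h
  exact pow_right_injective₀ (by norm_num) (by norm_num) h

/-- From averages to products over the blocks. -/
lemma blocks_ineq {N : ℕ} [NeZero N] {z : E} (hz : IsPrimitiveRoot z N) (x : E)
    (F : Finset E → ℝ) (hF : ∀ C, 0 ≤ F C) {a b : ℝ} (ha : 0 ≤ a) (hb : 0 ≤ b) (e : ℕ)
    (h : a ^ Fintype.card (E ≃ₐ[ℚ] E) ≤ b ^ Fintype.card (E ≃ₐ[ℚ] E) *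
      (∏ s : E ≃ₐ[ℚ] E, F (blk z (s x))) ^ e) :
    a ^ (blocks z x).card ≤ b ^ (blocks z x).card * (∏ C ∈ blocks z x, F C) ^ e := by
  rw [prod_blocks hz, card_blocks hz x, pow_mul a, pow_mul b,
    pow_right_comm (∏ C ∈ blocks z x, F C), ← mul_pow] at h
  refine le_of_pow_le_pow_left₀ (stab_pos z x).ne' ?_ h
  exact mul_nonneg (pow_nonneg hb _) (pow_nonneg (Finset.prod_nonneg fun C _ => hF C) _)

/-- The measure of a set. -/
noncomputable def nu (ι : E →+* ℂ) (C : Finset E) : ℝ := ∏ y ∈ C, max 1 ‖ι y‖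

omit [NumberField E] in
lemma one_le_nu (ι : E →+* ℂ) (C : Finset E) : 1 ≤ nu ι C :=
  Finset.prod_induction _ (fun x : ℝ => 1 ≤ x)
    (fun a b ha hb => one_le_mul_of_one_le_of_one_le ha hb) le_rfl (fun y _ => le_max_left _ _)

/-- The product of the measures of the blocks is at most the Mahler measure. -/
lemma prod_nu_le (ι : E →+* ℂ) {z x : E} {M : ℝ}
    (hM : ∀ S : Finset E, (∀ y ∈ S, ∃ s : E ≃ₐ[ℚ] E, y = s x) → ∏ y ∈ S, max 1 ‖ι y‖ ≤ M) :
    ∏ C ∈ blocks z x, nu ι C ≤ M := by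
  classical
  have h1 : ∏ C ∈ blocks z x, nu ι C = ∏ y ∈ (blocks z x).biUnion id, max 1 ‖ι y‖ := by
    rw [Finset.prod_biUnion]
    · rfl
    · intro C hC C' hC' hne
      unfold blocks at hC hC'
      rw [Finset.mem_coe, Finset.mem_image] at hC hC'
      obtain ⟨s, -, rfl⟩ := hC
      obtain ⟨s', -, rfl⟩ := hC'
      rw [Function.onFun, Finset.disjoint_left]
      intro y hy hy'
      apply hne
      simp only [id] at hy hy'
      exact (blk_eq_of_mem hy).symm.trans (blk_eq_of_mem hy')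
  rw [h1]
  apply hM
  intro y hy
  rw [Finset.mem_biUnion] at hy
  obtain ⟨C, hC, hyC⟩ := hy
  unfold blocks at hC
  obtain ⟨s, -, rfl⟩ := Finset.mem_image.mp hC
  simp only [id] at hyC
  obtain ⟨t, -, ht⟩ := mem_blk.mp hyC
  exact ⟨t * s, ht.symm⟩

lemma mu_eq_nu (ι : E →+* ℂ) {N : ℕ} [NeZero N] {z : E} (hz : IsPrimitiveRoot z N) (x : E)
    (s : E ≃ₐ[ℚ] E) : mu ι (blk z x) s = nu ι (blk z (s x)) := by
  classical
  unfold mu nu
  rw [← blk_map hz s, Finset.prod_image (fun a _ b _ h => s.injective h)]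

lemma card_blk {N : ℕ} [NeZero N] {z : E} (hz : IsPrimitiveRoot z N) (x : E)
    (s : E ≃ₐ[ℚ] E) : (blk z (s x)).card = (blk z x).card := by
  classical
  rw [← blk_map hz s, Finset.card_image_of_injective _ s.injective]

/-- Half of a set with a fixed point free involution. -/
lemma pairing {X : Type} (n : ℕ) : ∀ (O : Finset X), O.card ≤ n → ∀ (i : X → X),
    (∀ x ∈ O, i x ∈ O) → (∀ x ∈ O, i (i x) = x) → (∀ x ∈ O, i x ≠ x) →
    ∃ S ⊆ O, ∀ f : X → ℝ, (∀ x ∈ O, f (i x) = f x) → ∏ x ∈ O, f x = (∏ x ∈ S, f x) ^ 2 := by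
  classical
  induction n with
  | zero =>
    intro O hO i _ _ _
    have : O = ∅ := by
      rw [← Finset.card_eq_zero]
      omega
    subst this
    exact ⟨∅, by simp, fun f _ => by simp⟩
  | succ n ih =>
    intro O hO i h1 h2 h3
    by_cases hne : O.Nonempty
    · obtain ⟨x, hx⟩ := hne
      have hix := h1 x hx
      have hxe : i x ∈ O.erase x := Finset.mem_erase.mpr ⟨h3 x hx, hix⟩
      set O' := (O.erase x).erase (i x) with hO'
      have hmem : ∀ y ∈ O', y ∈ O ∧ y ≠ x ∧ y ≠ i x := by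
        intro y hy
        rw [hO', Finset.mem_erase, Finset.mem_erase] at hy
        exact ⟨hy.2.2, hy.2.1, hy.1⟩
      have hcard : O'.card ≤ n := by
        rw [hO', Finset.card_erase_of_mem hxe, Finset.card_erase_of_mem hx]
        omega
      obtain ⟨S, hS, hf⟩ := ih O' hcard i (by
        intro y hy
        obtain ⟨a, b, c⟩ := hmem y hy
        rw [hO', Finset.mem_erase, Finset.mem_erase]
        refine ⟨?_, ?_, h1 y a⟩
        · intro h
          apply b
          rw [← h2 y a, h, h2 x hx]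
        · intro h
          apply c
          rw [← h2 y a, h]) (fun y hy => h2 y (hmem y hy).1) (fun y hy => h3 y (hmem y hy).1)
      have hxS : x ∉ S := fun h => (hmem x (hS h)).2.1 rfl
      refine ⟨insert x S, ?_, ?_⟩
      · intro y hy
        rw [Finset.mem_insert] at hy
        rcases hy with rfl | hy
        · exact hx
        · exact (hmem y (hS hy)).1
      · intro f hff
        have e1 := hf f (fun y hy => hff y (hmem y hy).1)
        rw [Finset.prod_insert hxS, mul_pow, ← e1, hO', ← Finset.mul_prod_erase O f hx,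
          ← Finset.mul_prod_erase (O.erase x) f hxe, hff x hx]
        ring
    · rw [Finset.not_nonempty_iff_eq_empty] at hne
      subst hne
      exact ⟨∅, by simp, fun f _ => by simp⟩

end Pool.Agent.Q168.LA
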