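import Mathlib
import Pool.Agent.Q168.LA.Blocks

/-!
# Cyclotomic units which are not roots of unity
-/

set_option autoImplicit false

namespace Pool.Agent.Q168.LA

open Polynomial Module

variable {E : Type} [Field E] [NumberField E] [IsGalois ℚ E]

lemma exists_conj {N : ℕ} [NeZero N] {ζ : E} (hζ : IsPrimitiveRoot ζ N) :
    ∃ κ : E ≃ₐ[ℚ] E, κ ζ = ζ⁻¹ := by
  have h1 : minpoly ℚ ζ = cyclotomic N ℚ := (cyclotomic_eq_minpoly_rat hζ (NeZero.pos N)).symm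
  have h2 : minpoly ℚ ζ⁻¹ = cyclotomic N ℚ :=
    (cyclotomic_eq_minpoly_rat hζ.inv (NeZero.pos N)).symm
  have hc : IsConjRoot ℚ ζ⁻¹ ζ := by
    unfold IsConjRoot
    rw [h1, h2]
  obtain ⟨σ, hσ⟩ := hc.exists_algEquiv
  exact ⟨σ, hσ⟩

/-- Complex conjugation on the field of `ζ`. -/
lemma conj_apply (ι : E →+* ℂ) {N : ℕ} [NeZero N] {ζ : E} (hζ : IsPrimitiveRoot ζ N)
    {κ : E ≃ₐ[ℚ] E} (hκ : κ ζ = ζ⁻¹) {c : E} (hc : IsIntegral ℤ c)
    (hfix : ∀ s : E ≃ₐ[ℚ] E, s ζ = ζ → s c = c) (s : E ≃ₐ[ℚ] E) :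
    ι (s (κ c)) = (starRingEnd ℂ) (ι (s c)) := by
  obtain ⟨f, hf⟩ := exists_poly hζ hc hfix
  have h1 : ∀ (w : E), ι (aeval w f) = aeval (ι w) f := by
    intro w
    rw [aeval_def, aeval_def, hom_eval₂]
    congr 1
    exact RingHom.ext_int _ _
  have h2 : ∀ (w : ℂ), (starRingEnd ℂ) (aeval w f) = aeval ((starRingEnd ℂ) w) f := by
    intro w
    rw [aeval_def, aeval_def, hom_eval₂]
    congr 1
    exact RingHom.ext_int _ _
  have h3 : ‖ι (s ζ)‖ = 1 := norm_root ι (root_map s ⟨N, NeZero.pos N, hζ.pow_eq_one⟩)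
  rw [hf, ← aeval_alg, ← aeval_alg, ← aeval_alg, h1, h1, h2, hκ, map_inv₀, map_inv₀,
    Complex.inv_eq_conj h3]

/-- Every embedding comes from an automorphism. -/
lemma emb_eq (ι φ : E →+* ℂ) (x : E) : ∃ s : E ≃ₐ[ℚ] E, φ x = ι (s x) := by
  have hx : IsIntegral ℚ x := Algebra.IsIntegral.isIntegral x
  have hsp : ((minpoly ℚ x).map (algebraMap ℚ E)).Splits := Normal.splits inferInstance x
  have hprod := hsp.eq_prod_roots_of_monic ((minpoly.monic hx).map _)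
  have e1 : eval₂ (φ.comp (algebraMap ℚ E)) (φ x) (minpoly ℚ x) = 0 := by
    rw [← hom_eval₂, ← aeval_def, minpoly.aeval, map_zero]
  have e2 : φ.comp (algebraMap ℚ E) = ι.comp (algebraMap ℚ E) := RingHom.ext_rat _ _
  rw [e2, ← eval₂_map, hprod, eval₂_multiset_prod, Multiset.map_map] at e1
  obtain ⟨r, hr, hr2⟩ := Multiset.mem_map.mp (Multiset.prod_eq_zero_iff.mp e1)
  simp only [Function.comp_apply, eval₂_sub, eval₂_X, eval₂_C] at hr2
  have hroot : IsConjRoot ℚ r x := by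
    refine IsConjRoot.symm ?_
    have hr' : aeval r (minpoly ℚ x) = 0 := by
      have := isRoot_of_mem_roots hr
      rwa [IsRoot.def, eval_map_algebraMap] at this
    exact (isConjRoot_iff_aeval_eq_zero hx).mpr hr'
  obtain ⟨s, hs⟩ := hroot.exists_algEquiv
  exact ⟨s, by rw [hs]; exact sub_eq_zero.mp hr2⟩

lemma elem_ineq {r : ℝ} (hr : 0 < r) :
    (r - r⁻¹) ^ 2 ≤ ((max 1 r) ^ 2 / r) ^ 6 / 16 := by
  have key : ∀ x : ℝ, 1 ≤ x → (x - x⁻¹) ^ 2 ≤ x ^ 6 / 16 := by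
    intro x hx
    have hx0 : 0 < x := by linarith
    have h1 : (x - x⁻¹) ^ 2 = (x ^ 2 - 1) ^ 2 / x ^ 2 := by
      field_simp
    rw [h1, div_le_div_iff₀ (by positivity) (by norm_num)]
    have h3 : 1 ≤ x ^ 2 := one_le_pow₀ hx
    have h2 : 0 ≤ (x ^ 2 - 2) ^ 2 * (x ^ 4 + 4 * (x ^ 2 - 1)) :=
      mul_nonneg (sq_nonneg _) (by nlinarith [sq_nonneg (x ^ 2)])
    nlinarith
  rcases le_total 1 r with h | h
  · rw [max_eq_right h]
    have h1 : r ^ 2 / r = r := by field_simp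
    rw [h1]
    exact key r h
  · rw [max_eq_left h]
    have h1 : (1 : ℝ) ^ 2 / r = r⁻¹ := by rw [one_pow, one_div]
    rw [h1]
    have := key r⁻¹ ((one_le_inv₀ hr).mpr h)
    rw [inv_inv] at this
    have h2 : (r - r⁻¹) ^ 2 = (r⁻¹ - r) ^ 2 := by ring
    rw [h2]
    exact this

/-- The case in which the product of the block is not a root of unity. -/
theorem unit_case (ι : E →+* ℂ) {N : ℕ} [NeZero N] {ζ : E} (hζ : IsPrimitiveRoot ζ N)
    {α : E} (hint : IsIntegral ℤ α) (hinv : IsIntegral ℤ α⁻¹) (hα : α ≠ 0)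
    (hc : ¬ ∃ n : ℕ, 0 < n ∧ (∏ y ∈ blk ζ α, y) ^ n = 1) {M : ℝ}
    (hM : ∀ S : Finset E, (∀ y ∈ S, ∃ s : E ≃ₐ[ℚ] E, y = s α) → ∏ y ∈ S, max 1 ‖ι y‖ ≤ M) :
    1.21 < M := by
  classical
  set c := ∏ y ∈ blk ζ α, y with hcdef
  have hy0 : ∀ y ∈ blk ζ α, y ≠ 0 := by
    intro y hy
    obtain ⟨s, -, rfl⟩ := mem_blk.mp hy
    rwa [map_ne_zero_iff s s.injective]
  have hyint : ∀ y ∈ blk ζ α, IsIntegral ℤ y := by
    intro y hy
    obtain ⟨s, -, rfl⟩ := mem_blk.mp hy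
    exact isIntegral_map s hint
  have hyinv : ∀ y ∈ blk ζ α, IsIntegral ℤ y⁻¹ := by
    intro y hy
    obtain ⟨s, -, rfl⟩ := mem_blk.mp hy
    rw [← map_inv₀]
    exact isIntegral_map s hinv
  have hc0 : c ≠ 0 := Finset.prod_ne_zero_iff.mpr hy0
  have hcint : IsIntegral ℤ c := IsIntegral.prod _ hyint
  have hcinv : IsIntegral ℤ c⁻¹ := by
    rw [hcdef, ← Finset.prod_inv_distrib]
    exact IsIntegral.prod _ hyinv
  have hfix : ∀ s : E ≃ₐ[ℚ] E, s ζ = ζ → s c = c := by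
    intro s hs
    rw [hcdef, map_prod]
    exact prod_stable s (fun y hy => blk_stable hs hy) id
  obtain ⟨κ, hκ⟩ := exists_conj hζ
  have hconj := conj_apply ι hζ hκ hcint hfix
  set v := c * κ c with hv
  have hκ0 : κ c ≠ 0 := by rwa [map_ne_zero_iff κ κ.injective]
  have hv0 : v ≠ 0 := mul_ne_zero hc0 hκ0
  have hvint : IsIntegral ℤ v := hcint.mul (isIntegral_map κ hcint)
  have hvinv : IsIntegral ℤ v⁻¹ := by
    rw [hv, mul_inv, ← map_inv₀]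
    exact hcinv.mul (isIntegral_map κ hcinv)
  have hιv : ∀ s : E ≃ₐ[ℚ] E, ι (s v) = ((‖ι (s c)‖ ^ 2 : ℝ) : ℂ) := by
    intro s
    rw [hv, map_mul, map_mul, hconj, Complex.mul_conj, Complex.normSq_eq_norm_sq]
  have hr0 : ∀ s : E ≃ₐ[ℚ] E, 0 < ‖ι (s c)‖ := by
    intro s
    rw [norm_pos_iff, map_ne_zero_iff ι ι.injective, map_ne_zero_iff s s.injective]
    exact hc0
  set δ := v + v⁻¹ - 2 with hδ
  have hδint : IsIntegral ℤ δ := by
    refine (hvint.add hvinv).sub ?_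
    have : (2 : E) = algebraMap ℤ E 2 := by simp
    rw [this]
    exact isIntegral_algebraMap
  have hδ0 : δ ≠ 0 := by
    intro h
    have h1 : (v - 1) ^ 2 = 0 := by
      have h2 : v * δ = 0 := by rw [h, mul_zero]
      rw [hδ] at h2
      have h3 : v * v⁻¹ = 1 := mul_inv_cancel₀ hv0
      linear_combination h2 - h3
    have h2 : v = 1 := sub_eq_zero.mp (pow_eq_zero_iff (by norm_num) |>.mp h1)
    apply hc
    have h3 : ∀ φ : E →+* ℂ, ‖φ c‖ = 1 := by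
      intro φ
      obtain ⟨s, hs⟩ := emb_eq ι φ c
      have h4 := hιv s
      rw [h2, map_one, map_one] at h4
      have h5 : ‖ι (s c)‖ ^ 2 = 1 := by exact_mod_cast h4.symm
      rw [hs]
      have h6 := norm_nonneg (ι (s c))
      nlinarith
    obtain ⟨n, hn, hn'⟩ := NumberField.Embeddings.pow_eq_one_of_norm_eq_one E ℂ hcint h3
    exact ⟨n, hn, hn'⟩
  have hnorm : ∀ s : E ≃ₐ[ℚ] E, ‖ι (s δ)‖ = (‖ι (s c)‖ - ‖ι (s c)‖⁻¹) ^ 2 := by
    intro s
    have h1 := hr0 s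
    set r := ‖ι (s c)‖ with hr
    have h2 : ι (s δ) = (((r - r⁻¹) ^ 2 : ℝ) : ℂ) := by
      rw [hδ, map_sub, map_add, map_inv₀, map_sub, map_add, map_inv₀, hιv, ← hr, map_ofNat,
        map_ofNat]
      have h3 : r * r⁻¹ = 1 := mul_inv_cancel₀ h1.ne'
      have h4 : r ^ 2 + (r ^ 2)⁻¹ - 2 = (r - r⁻¹) ^ 2 := by
        rw [← inv_pow]
        linear_combination (2 : ℝ) * h3
      rw [← h4]
      push_cast
      ring
    rw [h2, Complex.norm_real, Real.norm_eq_abs, abs_of_nonneg (sq_nonneg _)]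
  have hprod1 : ∏ s : E ≃ₐ[ℚ] E, ‖ι (s c)‖ = 1 := by
    apply le_antisymm
    · have h1 := one_le_prod ι hcinv (inv_ne_zero hc0)
      have h2 : ∏ s : E ≃ₐ[ℚ] E, ‖ι (s c⁻¹)‖ = (∏ s : E ≃ₐ[ℚ] E, ‖ι (s c)‖)⁻¹ := by
        have h3 : ∀ s : E ≃ₐ[ℚ] E, ‖ι (s c⁻¹)‖ = ‖ι (s c)‖⁻¹ := fun s => by
          rw [map_inv₀, map_inv₀, norm_inv]
        simp only [h3]
        exact Finset.prod_inv_distrib _
      rw [h2] at h1
      have h3 : 0 < ∏ s : E ≃ₐ[ℚ] E, ‖ι (s c)‖ := Finset.prod_pos fun s _ => hr0 s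
      rwa [one_le_inv₀ h3] at h1
    · exact one_le_prod ι hcint hc0
  have hmu : ∀ s : E ≃ₐ[ℚ] E, max 1 ‖ι (s c)‖ ≤ nu ι (blk ζ (s α)) := by
    intro s
    rw [← mu_eq_nu ι hζ α s]
    apply max_le (one_le_mu ι _ s)
    rw [hcdef, map_prod, map_prod, norm_prod]
    exact Finset.prod_le_prod (fun y _ => norm_nonneg _) (fun y _ => le_max_right _ _)
  have hmain : (16 : ℝ) ^ Fintype.card (E ≃ₐ[ℚ] E) ≤ 1 ^ Fintype.card (E ≃ₐ[ℚ] E) *
      (∏ s : E ≃ₐ[ℚ] E, nu ι (blk ζ (s α))) ^ 12 := by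
    have h1 := one_le_prod ι hδint hδ0
    have h2 : ∏ s : E ≃ₐ[ℚ] E, ‖ι (s δ)‖ ≤
        ∏ s : E ≃ₐ[ℚ] E, (((max 1 ‖ι (s c)‖) ^ 2 / ‖ι (s c)‖) ^ 6 / 16) := by
      refine Finset.prod_le_prod (fun s _ => norm_nonneg _) (fun s _ => ?_)
      rw [hnorm]
      exact elem_ineq (hr0 s)
    rw [Finset.prod_div_distrib, Finset.prod_const, Finset.card_univ, Finset.prod_pow,
      Finset.prod_div_distrib, hprod1, div_one, Finset.prod_pow] at h2
    have h3 := h1.trans h2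
    rw [le_div_iff₀ (by positivity), one_mul] at h3
    rw [one_pow, one_mul]
    refine h3.trans ?_
    rw [← pow_mul]
    refine pow_le_pow_left₀ (Finset.prod_nonneg fun s _ => ?_) ?_ 12
    · exact le_trans zero_le_one (le_max_left _ _)
    · exact Finset.prod_le_prod (fun s _ => le_trans zero_le_one (le_max_left _ _))
        (fun s _ => hmu s)
  have hb := blocks_ineq hζ α (fun C => nu ι C) (fun C => by linarith [one_le_nu ι C])
    (by norm_num) (by norm_num) 12 hmain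
  rw [one_pow, one_mul] at hb
  have hk : 1 ≤ (blocks ζ α).card := by
    rw [Nat.one_le_iff_ne_zero, ← Nat.pos_iff_ne_zero, Finset.card_pos]
    exact ⟨blk ζ ((1 : E ≃ₐ[ℚ] E) α), Finset.mem_image_of_mem _ (Finset.mem_univ _)⟩
  have h16 : (16 : ℝ) ≤ 16 ^ (blocks ζ α).card := by
    calc (16 : ℝ) = 16 ^ 1 := (pow_one _).symm
      _ ≤ _ := pow_le_pow_right₀ (by norm_num) hk
  have hP1 : 1 ≤ ∏ C ∈ blocks ζ α, nu ι C := Finset.prod_induction _ (fun x : ℝ => 1 ≤ x)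
    (fun a b ha hb => one_le_mul_of_one_le_of_one_le ha hb) le_rfl (fun C _ => one_le_nu ι C)
  have hPM := prod_nu_le ι (z := ζ) hM
  by_contra hcon
  push Not at hcon
  have h5 : (∏ C ∈ blocks ζ α, nu ι C) ^ 12 ≤ 1.21 ^ 12 :=
    pow_le_pow_left₀ (by linarith) (hPM.trans hcon) 12
  have h6 : (1.21 : ℝ) ^ 12 < 16 := by norm_num
  linarith

end Pool.Agent.Q168.LA
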