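import Mathlib
import Pool.Agent.Q168.LA.Units

/-!
# The inequality for blocks of two or three conjugates
-/

set_option autoImplicit false

namespace Pool.Agent.Q168.LA

open Polynomial Module

variable {E : Type} [Field E] [NumberField E] [IsGalois ℚ E]

/-- The average inequality for a block of two or three conjugates whose product is a root of
unity. -/
theorem block_ineq (ι : E →+* ℂ) {N0 : ℕ} [NeZero N0] {z : E} (hz : IsPrimitiveRoot z N0)
    {α : E} (hint : IsIntegral ℤ α) (hinv : IsIntegral ℤ α⁻¹) (hα : α ≠ 0)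
    (hroot : ∀ n : ℕ, 0 < n → α ^ n ≠ 1)
    (hcard : (blk z α).card = 2 ∨ (blk z α).card = 3)
    (hc : ∃ n : ℕ, 0 < n ∧ (∏ y ∈ blk z α, y) ^ n = 1) :
    (7 : ℝ) ^ (blocks z α).card ≤ (2 * (blk z α).card) ^ (blocks z α).card *
      (∏ C ∈ blocks z α, V (blk z α).card (nu ι C)) ^ 2 := by
  classical
  set m := (blk z α).card with hm
  -- the minimal conductor
  have hQ : ∃ N : ℕ, 0 < N ∧ N ∣ N0 ∧ ∃ ξ : E, (∃ n : ℕ, 0 < n ∧ ξ ^ n = 1) ∧
      (∀ s : E ≃ₐ[ℚ] E, s z = z → s ξ = ξ) ∧ (blk (z ^ (N0 / N)) (ξ * α)).card ≤ m := by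
    refine ⟨N0, NeZero.pos N0, dvd_rfl, 1, ⟨1, one_pos, by simp⟩, fun s _ => map_one s, ?_⟩
    rw [Nat.div_self (NeZero.pos N0), pow_one, one_mul]
  obtain ⟨hNpos, hN, ξ, hξ, hξfix, hξcard⟩ := Nat.find_spec hQ
  have hNmin := fun N' (h : N' < Nat.find hQ) => Nat.find_min hQ h
  set N := Nat.find hQ with hNdef
  have : NeZero N := ⟨by omega⟩
  set ζ := z ^ (N0 / N) with hζdef
  have hζ : IsPrimitiveRoot ζ N :=
    hz.pow (NeZero.pos N0) (by rw [mul_comm, Nat.mul_div_cancel' hN])
  have hzζ : ∀ s : E ≃ₐ[ℚ] E, s z = z → s ζ = ζ := by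
    intro s hs
    rw [hζdef, map_pow, hs]
  have hξ0 : ξ ≠ 0 := by
    rintro rfl
    obtain ⟨n, hn, h⟩ := hξ
    rw [zero_pow hn.ne'] at h
    exact zero_ne_one h
  -- the twisted block
  set Y := (blk z α).image (fun y => ξ * y) with hY
  have hinjξ : Function.Injective (fun y : E => ξ * y) := fun a b h => mul_left_cancel₀ hξ0 h
  have hYcard : Y.card = m := by rw [hY, Finset.card_image_of_injective _ hinjξ]
  have hYblk : Y = blk ζ (ξ * α) := by
    apply Finset.eq_of_subset_of_card_le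
    · intro y hy
      rw [hY, Finset.mem_image] at hy
      obtain ⟨x, hx, rfl⟩ := hy
      obtain ⟨s, hs, rfl⟩ := mem_blk.mp hx
      exact mem_blk.mpr ⟨s, hzζ s hs, by rw [map_mul, hξfix s hs]⟩
    · rw [hYcard]
      exact hξcard
  have hmemY : ∀ y ∈ Y, ∃ s : E ≃ₐ[ℚ] E, y = s (ξ * α) := by
    intro y hy
    rw [hYblk] at hy
    obtain ⟨s, -, hs⟩ := mem_blk.mp hy
    exact ⟨s, hs.symm⟩
  have hξα0 : ξ * α ≠ 0 := mul_ne_zero hξ0 hα
  have h0 : ∀ y ∈ Y, y ≠ 0 := by
    intro y hy
    obtain ⟨s, rfl⟩ := hmemY y hy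
    rwa [map_ne_zero_iff s s.injective]
  have hξint := root_integral hξ
  have hξinv : IsIntegral ℤ ξ⁻¹ := by
    obtain ⟨n, hn, h⟩ := hξ
    exact root_integral ⟨n, hn, by rw [inv_pow, h, inv_one]⟩
  have hintY : ∀ y ∈ Y, IsIntegral ℤ y := by
    intro y hy
    obtain ⟨s, rfl⟩ := hmemY y hy
    exact isIntegral_map s (hξint.mul hint)
  have hinvY : ∀ y ∈ Y, IsIntegral ℤ y⁻¹ := by
    intro y hy
    obtain ⟨s, rfl⟩ := hmemY y hy
    rw [← map_inv₀, mul_inv]
    exact isIntegral_map s (hξinv.mul hinv)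
  have hrootY : ∀ y ∈ Y, ∀ n : ℕ, 0 < n → y ^ n ≠ 1 := by
    intro y hy n hn h
    obtain ⟨s, rfl⟩ := hmemY y hy
    rw [← map_pow] at h
    have h1 : (ξ * α) ^ n = 1 := by
      apply s.injective
      rw [h, map_one]
    obtain ⟨k, hk, hξk⟩ := hξ
    apply hroot (n * k) (Nat.mul_pos hn hk)
    have h2 : (ξ * α) ^ (n * k) = 1 := by rw [pow_mul, h1, one_pow]
    have h3 : ξ ^ (n * k) = 1 := by rw [mul_comm, pow_mul, hξk, one_pow]
    rwa [mul_pow, h3, one_mul] at h2
  have hcY : ∃ n : ℕ, 0 < n ∧ (∏ y ∈ Y, y) ^ n = 1 := by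
    rw [hY, Finset.prod_image (fun a _ b _ h => hinjξ h), Finset.prod_mul_distrib,
      Finset.prod_const]
    obtain ⟨k, hk, hξk⟩ := hξ
    obtain ⟨l, hl, hcl⟩ := hc
    refine ⟨k * l, Nat.mul_pos hk hl, ?_⟩
    rw [mul_pow, ← pow_mul, show (blk z α).card * (k * l) = k * ((blk z α).card * l) by ring,
      pow_mul, hξk, one_pow, one_mul, mul_comm k l, pow_mul, hcl, one_pow]
  have hneY : Y.Nonempty := by
    rw [← Finset.card_pos, hYcard]
    rcases hcard with h | h <;> omega
  have hγ := gamma_exists ι hζ (Y := Y) (by rw [hYcard]; exact hcard) h0 hintY hinvY hrootY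
    (fun s hs y hy => by
      rw [hYblk] at hy ⊢
      exact blk_stable hs hy)
    (fun y hy y' hy' => by
      rw [hYblk] at hy hy'
      exact blk_trans hy hy')
    hcY (by
      intro h7 b hb hbfix
      by_contra hcon
      push Not at hcon
      obtain ⟨k, hk⟩ := h7
      have hkpos : 0 < k := by
        rcases Nat.eq_zero_or_pos k with h | h
        · rw [h, mul_zero] at hk
          omega
        · exact h
      have hkN0 : k ∣ N0 := (Dvd.intro_left 7 hk.symm).trans hN
      have hb0 : b ≠ 0 := by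
        rintro rfl
        obtain ⟨n, hn, h⟩ := hb
        rw [zero_pow hn.ne'] at h
        exact zero_ne_one h
      have hpow : z ^ (N0 / k) = ζ ^ 7 := by
        rw [hζdef, ← pow_mul]
        congr 1
        obtain ⟨q, hq⟩ := hN
        have e1 : N0 / N = q := by
          rw [hq]
          exact Nat.mul_div_cancel_left q hNpos
        have e2 : N0 / k = q * 7 := by
          rw [hq, hk]
          rw [show 7 * k * q = k * (q * 7) by ring]
          exact Nat.mul_div_cancel_left _ hkpos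
        rw [e1, e2]
      apply hNmin k (by omega)
      refine ⟨hkpos, hkN0, ξ / b, ?_, ?_, ?_⟩
      · obtain ⟨n, hn, h⟩ := hb
        obtain ⟨n', hn', h'⟩ := hξ
        refine ⟨n * n', Nat.mul_pos hn hn', ?_⟩
        rw [div_pow, pow_mul b, h, one_pow, mul_comm n n', pow_mul, h', one_pow, div_one]
      · intro s hs
        rw [map_div₀, hξfix s hs, hbfix s (hzζ s hs)]
      · rw [hpow]
        have hsub : blk (ζ ^ 7) (ξ / b * α) ⊆ Y.image (fun y => y / b) := by
          intro w hw
          obtain ⟨s, hs, rfl⟩ := mem_blk.mp hw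
          obtain ⟨y', hy', he⟩ := hcon s hs (ξ * α) (by rw [hYblk]; exact self_mem_blk _ _)
          rw [Finset.mem_image]
          refine ⟨y', hy', ?_⟩
          rw [← he, mul_div_right_comm]
        calc (blk (ζ ^ 7) (ξ / b * α)).card ≤ (Y.image (fun y => y / b)).card :=
              Finset.card_le_card hsub
          _ ≤ Y.card := Finset.card_image_le
          _ = m := hYcard)
  have havg := avg_ineq ι hneY h0 hcY hγ
  rw [hYcard] at havg
  have hmu : ∀ s : E ≃ₐ[ℚ] E, mu ι Y s = nu ι (blk z (s α)) := by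
    intro s
    rw [← mu_eq_nu ι hz α s]
    unfold mu
    rw [hY, Finset.prod_image (fun a _ b _ h => hinjξ h)]
    refine Finset.prod_congr rfl fun y _ => ?_
    rw [map_mul, map_mul, norm_mul, norm_root ι (root_map s hξ), one_mul]
  simp only [hmu] at havg
  have hmpos : (0 : ℝ) < m := by
    rcases hcard with h | h <;> rw [h] <;> norm_num
  exact blocks_ineq hz α (fun C => V m (nu ι C))
    (fun C => by linarith [one_le_V hmpos (show 0 < nu ι C by linarith [one_le_nu ι C])])
    (by norm_num) (by positivity) 2 havg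

/-- Two conjugates over the rational numbers. -/
lemma one_block (ι : E →+* ℂ) {z α : E} (hα : α ≠ 0)
    (hroot : ∀ n : ℕ, 0 < n → α ^ n ≠ 1) (hint : IsIntegral ℤ α)
    (hcard : (blk z α).card = 2)
    (hstab : ∀ s : E ≃ₐ[ℚ] E, blk z (s α) = blk z α)
    (hc : ∃ n : ℕ, 0 < n ∧ (∏ y ∈ blk z α, y) ^ n = 1) : 1.21 < nu ι (blk z α) := by
  classical
  obtain ⟨y1, y2, h12, hB⟩ := Finset.card_eq_two.mp hcard
  have hst : ∀ (s : E ≃ₐ[ℚ] E), ∀ y ∈ blk z α, s y ∈ blk z α := by
    intro s y hy
    obtain ⟨t, ht, rfl⟩ := mem_blk.mp hy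
    have h1 := self_mem_blk z ((s * t) α)
    rw [hstab (s * t)] at h1
    exact h1
  have hyint : ∀ y ∈ blk z α, IsIntegral ℤ y := by
    intro y hy
    obtain ⟨s, -, rfl⟩ := mem_blk.mp hy
    exact isIntegral_map s hint
  have hint_fixed : ∀ x : E, IsIntegral ℤ x → (∀ s : E ≃ₐ[ℚ] E, s x = x) →
      ∃ n : ℤ, x = n := by
    intro x hx hfix
    have h1 : x ∈ (⊥ : IntermediateField ℚ E) := by
      rw [← IsGalois.fixedField_fixingSubgroup (⊥ : IntermediateField ℚ E),
        IntermediateField.mem_fixedField_iff]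
      intro s _
      exact hfix s
    obtain ⟨q, hq⟩ := IntermediateField.mem_bot.mp h1
    have h2 : IsIntegral ℤ q := (isIntegral_algebraMap_iff (algebraMap ℚ E).injective).mp
      (by rw [hq]; exact hx)
    obtain ⟨n, hn⟩ := IsIntegrallyClosed.isIntegral_iff.mp h2
    refine ⟨n, ?_⟩
    rw [← hq, ← hn]
    simp
  obtain ⟨n, hn⟩ := hint_fixed (∑ y ∈ blk z α, y) (IsIntegral.sum _ hyint) (fun s => by
    rw [map_sum]
    exact sum_stable s (hst s) id)
  obtain ⟨c, hcn⟩ := hint_fixed (∏ y ∈ blk z α, y) (IsIntegral.prod _ hyint) (fun s => by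
    rw [map_prod]
    exact prod_stable s (hst s) id)
  have hc1 : ‖ι (∏ y ∈ blk z α, y)‖ = 1 := norm_root ι hc
  have hcabs : c = 1 ∨ c = -1 := by
    rw [hcn, map_intCast, Complex.norm_intCast] at hc1
    have : |c| = 1 := by exact_mod_cast hc1
    exact (abs_eq (by norm_num)).mp this
  rw [hB, Finset.sum_pair h12] at hn
  rw [hB, Finset.prod_pair h12] at hcn hc1
  have hm1 : y1 ∈ blk z α := by rw [hB]; simp
  have hr1 : ∀ k : ℕ, 0 < k → y1 ^ k ≠ 1 := by
    intro k hk h
    obtain ⟨s, -, rfl⟩ := mem_blk.mp hm1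
    apply hroot k hk
    apply s.injective
    rw [map_pow, h, map_one]
  have hy0 : y1 ≠ 0 := by
    obtain ⟨s, -, rfl⟩ := mem_blk.mp hm1
    rwa [map_ne_zero_iff s s.injective]
  by_contra hcon
  push Not at hcon
  have hnu : nu ι (blk z α) = max 1 ‖ι y1‖ * max 1 ‖ι y2‖ := by
    unfold nu
    rw [hB, Finset.prod_pair h12]
  rw [hnu] at hcon
  rw [map_mul, norm_mul] at hc1
  set a := ‖ι y1‖ with ha
  set b := ‖ι y2‖ with hb
  have ha0 : 0 < a := by
    rw [ha, norm_pos_iff, map_ne_zero_iff ι ι.injective]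
    exact hy0
  have hb0 : 0 < b := by
    by_contra h
    push Not at h
    nlinarith
  have ha1 : a ≤ 1.21 := by
    have h1 := le_max_right 1 a
    have h2 := le_max_left 1 b
    nlinarith [le_max_left 1 a]
  have hb1 : b ≤ 1.21 := by
    have h1 := le_max_right 1 b
    have h2 := le_max_left 1 a
    nlinarith [le_max_left 1 b]
  have habs : a + b ≤ 2.05 := by
    nlinarith
  have hn3 : |(n : ℝ)| ≤ 2.05 := by
    rw [← Complex.norm_intCast, ← map_intCast ι n, ← hn, map_add]
    exact (norm_add_le _ _).trans habs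
  have hn2 : -2 ≤ n ∧ n ≤ 2 := by
    have h1 := abs_le.mp hn3
    constructor
    · by_contra h
      push Not at h
      have : (n : ℝ) ≤ -3 := by exact_mod_cast (show n ≤ -3 by omega)
      linarith
    · by_contra h
      push Not at h
      have : (3 : ℝ) ≤ n := by exact_mod_cast (show 3 ≤ n by omega)
      linarith
  rcases hcabs with rfl | rfl
  · -- y1 + 1/y1 = n
    have h3 : y1 ^ 2 = n * y1 - 1 := by
      push_cast at hcn
      linear_combination y1 * hn - hcn
    apply hr1 12 (by norm_num)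
    obtain ⟨l1, l2⟩ := hn2
    interval_cases n
    · have h5 : y1 + 1 = 0 := by
        have h4 : (y1 + 1) ^ 2 = 0 := by push_cast at h3; linear_combination h3
        exact pow_eq_zero_iff (by norm_num) |>.mp h4
      have h6 : y1 = -1 := by linear_combination h5
      rw [h6]; norm_num
    · have h4 : y1 ^ 3 = 1 := by push_cast at h3; linear_combination (y1 - 1) * h3
      calc y1 ^ 12 = (y1 ^ 3) ^ 4 := by ring
        _ = 1 := by rw [h4]; norm_num
    · have h4 : y1 ^ 2 = -1 := by push_cast at h3; linear_combination h3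
      calc y1 ^ 12 = (y1 ^ 2) ^ 6 := by ring
        _ = 1 := by rw [h4]; norm_num
    · have h4 : y1 ^ 3 = -1 := by push_cast at h3; linear_combination (y1 + 1) * h3
      calc y1 ^ 12 = (y1 ^ 3) ^ 4 := by ring
        _ = 1 := by rw [h4]; norm_num
    · have h5 : y1 - 1 = 0 := by
        have h4 : (y1 - 1) ^ 2 = 0 := by push_cast at h3; linear_combination h3
        exact pow_eq_zero_iff (by norm_num) |>.mp h4
      have h6 : y1 = 1 := by linear_combination h5
      rw [h6]; norm_num
  · -- product -1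
    by_cases hn0 : n = 0
    · subst hn0
      push_cast at hn hcn
      apply hr1 2 (by norm_num)
      linear_combination y1 * hn - hcn
    · have h4 : y1 ^ 2 + y2 ^ 2 = (n : E) ^ 2 + 2 := by
        push_cast at hcn
        rw [← hn]
        linear_combination (-2 : E) * hcn
      have h5 : ‖((n : ℂ) ^ 2 + 2)‖ ≤ a ^ 2 + b ^ 2 := by
        have h6 := congrArg ι h4
        rw [map_add, map_add, map_pow, map_pow, map_pow, map_intCast, map_ofNat] at h6
        rw [← h6]
        refine (norm_add_le _ _).trans (le_of_eq ?_)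
        rw [norm_pow, norm_pow]
      have h7 : ‖((n : ℂ) ^ 2 + 2)‖ = (n : ℝ) ^ 2 + 2 := by
        have : ((n : ℂ) ^ 2 + 2) = (((n : ℝ) ^ 2 + 2 : ℝ) : ℂ) := by push_cast; ring
        rw [this, Complex.norm_real, Real.norm_eq_abs, abs_of_nonneg (by positivity)]
      rw [h7] at h5
      have h8 : (1 : ℝ) ≤ (n : ℝ) ^ 2 := by
        have h9 : 0 < n ^ 2 := by positivity
        have : (1 : ℤ) ≤ n ^ 2 := by omega
        exact_mod_cast this
      nlinarith

/-- **Main theorem, for Galois number fields.** -/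
theorem core (ι : E →+* ℂ) {N0 : ℕ} [NeZero N0] {z : E} (hz : IsPrimitiveRoot z N0)
    {α : E} (hint : IsIntegral ℤ α) (hinv : IsIntegral ℤ α⁻¹) (hα : α ≠ 0)
    (hroot : ∀ n : ℕ, 0 < n → α ^ n ≠ 1) (hcard : (blk z α).card ≤ 3)
    (hrec : (blk z α).card = 3 → ∃ τ : E ≃ₐ[ℚ] E, τ α = α⁻¹) {M : ℝ}
    (hM : ∀ S : Finset E, (∀ y ∈ S, ∃ s : E ≃ₐ[ℚ] E, y = s α) → ∏ y ∈ S, max 1 ‖ι y‖ ≤ M) :
    1.21 < M := by
  classical
  by_cases hc : ∃ n : ℕ, 0 < n ∧ (∏ y ∈ blk z α, y) ^ n = 1
  swap
  · exact unit_case ι hz hint hinv hα hc hM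
  have hPM := prod_nu_le ι (z := z) hM
  have hpos : 0 < (blk z α).card := Finset.card_pos.mpr ⟨α, self_mem_blk z α⟩
  have h1card : (blk z α).card ≠ 1 := by
    intro h
    obtain ⟨x, hx⟩ := Finset.card_eq_one.mp h
    have h1 := self_mem_blk z α
    rw [hx, Finset.mem_singleton] at h1
    rw [hx, Finset.prod_singleton, ← h1] at hc
    obtain ⟨n, hn, h2⟩ := hc
    exact hroot n hn h2
  have h23 : (blk z α).card = 2 ∨ (blk z α).card = 3 := by omega
  have hineq := block_ineq ι hz hint hinv hα hroot h23 hc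
  have hnu1 : ∀ C ∈ blocks z α, 1 ≤ nu ι C := fun C _ => one_le_nu ι C
  have hmemO : ∀ s : E ≃ₐ[ℚ] E, blk z (s α) ∈ blocks z α := fun s =>
    Finset.mem_image_of_mem _ (Finset.mem_univ s)
  by_contra hcon
  push Not at hcon
  rcases h23 with h2 | h3
  · rw [h2] at hineq
    simp only [Nat.cast_ofNat] at hineq
    obtain ⟨h4, h5⟩ := V_prod (m := 2) (by norm_num) (blocks z α) (fun C => nu ι C) hnu1
    have h6 : V 2 (∏ C ∈ blocks z α, nu ι C) ≤ V 2 1.21 :=
      V_mono (by norm_num) h4 (hPM.trans hcon)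
    have hV0 : 0 ≤ ∏ C ∈ blocks z α, V 2 (nu ι C) := Finset.prod_nonneg fun C hC => by
      linarith [one_le_V (show (0 : ℝ) < 2 by norm_num)
        (show 0 < nu ι C by linarith [hnu1 C hC])]
    have h7 : (∏ C ∈ blocks z α, V 2 (nu ι C)) ^ 2 ≤ (V 2 1.21) ^ 2 :=
      pow_le_pow_left₀ hV0 (h5.trans h6) 2
    have h8 : (V 2 1.21) ^ 2 < 3 := by
      unfold V
      norm_num
    have hk : (blocks z α).card < 2 := by
      by_contra hk
      push Not at hk
      set k := (blocks z α).card with hkdef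
      obtain ⟨j, hj⟩ : ∃ j, k = j + 2 := ⟨k - 2, by omega⟩
      have h9 : (7 : ℝ) ^ k < (2 * 2) ^ k * 3 :=
        lt_of_le_of_lt hineq (mul_lt_mul_of_pos_left (lt_of_le_of_lt h7 h8) (by positivity))
      rw [hj, pow_add, pow_add] at h9
      have h11 : (0 : ℝ) < 4 ^ j := by positivity
      have h10 : (4 : ℝ) ^ j ≤ 7 ^ j := pow_le_pow_left₀ (by norm_num) (by norm_num) j
      norm_num at h9
      nlinarith
    have hk1 : (blocks z α).card = 1 := by
      have : 0 < (blocks z α).card := Finset.card_pos.mpr ⟨_, hmemO 1⟩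
      omega
    obtain ⟨C, hC⟩ := Finset.card_eq_one.mp hk1
    have hCall : ∀ s : E ≃ₐ[ℚ] E, blk z (s α) = C := by
      intro s
      have := hmemO s
      rwa [hC, Finset.mem_singleton] at this
    have hC1 : blk z α = C := hCall 1
    have h9 := one_block ι hα hroot hint h2 (fun s => (hCall s).trans hC1.symm) hc
    rw [hC, Finset.prod_singleton, ← hC1] at hPM
    linarith
  · rw [h3] at hineq
    simp only [Nat.cast_ofNat] at hineq
    obtain ⟨τ, hτ⟩ := hrec h3
    -- inversion of blocks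
    set i : Finset E → Finset E := fun C => C.image (fun x => x⁻¹) with hi
    have hii : ∀ s : E ≃ₐ[ℚ] E, i (blk z (s α)) = blk z ((s * τ) α) := by
      intro s
      rw [AlgEquiv.mul_apply, hτ, map_inv₀]
      ext w
      rw [hi]
      simp only
      rw [Finset.mem_image, mem_blk]
      constructor
      · rintro ⟨x, hx, rfl⟩
        obtain ⟨t, ht, rfl⟩ := mem_blk.mp hx
        exact ⟨t, ht, by rw [map_inv₀]⟩
      · rintro ⟨t, ht, rfl⟩
        exact ⟨t (s α), mem_blk.mpr ⟨t, ht, rfl⟩, by rw [map_inv₀]⟩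
    have hform : ∀ C ∈ blocks z α, ∃ s : E ≃ₐ[ℚ] E, C = blk z (s α) := by
      intro C hC
      obtain ⟨s, -, rfl⟩ := Finset.mem_image.mp hC
      exact ⟨s, rfl⟩
    obtain ⟨S, hS, hSf⟩ := pairing (blocks z α).card (blocks z α) le_rfl i (by
      intro C hC
      obtain ⟨s, rfl⟩ := hform C hC
      rw [hii]
      exact hmemO _) (by
      intro C _
      rw [hi]
      simp only
      rw [Finset.image_image]
      have : ((fun x : E => x⁻¹) ∘ fun x => x⁻¹) = id := by
        funext x
        simp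
      rw [this, Finset.image_id]) (by
      intro C hC heq
      obtain ⟨s, rfl⟩ := hform C hC
      have hcardC : (blk z (s α)).card = 3 := by rw [card_blk hz, h3]
      have hsum : ∑ _y ∈ blk z (s α), (1 : ZMod 2) = 0 := by
        refine Finset.sum_involution (fun y _ => y⁻¹) ?_ ?_ ?_ ?_
        · intro a _
          decide
        · intro a ha _ hfix
          obtain ⟨t, -, rfl⟩ := mem_blk.mp ha
          have h4 : (t (s α)) ^ 2 = 1 := by
            have h5 : t (s α) ≠ 0 := by
              rw [map_ne_zero_iff t t.injective, map_ne_zero_iff s s.injective]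
              exact hα
            rw [pow_two]
            nth_rewrite 1 [← hfix]
            exact inv_mul_cancel₀ h5
          apply hroot 2 (by norm_num)
          apply s.injective
          apply t.injective
          rw [map_pow, map_pow, h4, map_one, map_one]
        · intro a ha
          change a⁻¹ ∈ blk z (s α)
          have h4 : a⁻¹ ∈ i (blk z (s α)) := Finset.mem_image_of_mem _ ha
          rwa [heq] at h4
        · intro a _
          exact inv_inv a
      rw [Finset.sum_const, hcardC] at hsum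
      exact absurd hsum (by decide))
    have hprodC : ∀ C ∈ blocks z α, ∏ y ∈ C, ‖ι y‖ = 1 := by
      intro C hC
      obtain ⟨s, rfl⟩ := hform C hC
      rw [← blk_map hz s, Finset.prod_image (fun a _ b _ h => s.injective h), ← norm_prod,
        ← map_prod, ← map_prod]
      exact norm_root ι (root_map s hc)
    have hnui : ∀ C ∈ blocks z α, nu ι (i C) = nu ι C := by
      intro C hC
      rw [hi]
      unfold nu
      simp only
      rw [Finset.prod_image (fun a _ b _ h => inv_injective h)]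
      have h4 : ∏ y ∈ C, max 1 ‖ι y⁻¹‖ * ‖ι y‖ = ∏ y ∈ C, max 1 ‖ι y‖ := by
        refine Finset.prod_congr rfl fun y hy => ?_
        have hy0 : 0 < ‖ι y‖ := by
          rcases (norm_nonneg (ι y)).lt_or_eq with h | h
          · exact h
          · exfalso
            have h5 := hprodC C hC
            rw [Finset.prod_eq_zero hy h.symm] at h5
            exact zero_ne_one h5
        rw [map_inv₀, norm_inv, max_mul_of_nonneg _ _ hy0.le, one_mul, inv_mul_cancel₀ hy0.ne',
          max_comm]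
      rw [← h4, Finset.prod_mul_distrib, hprodC C hC, mul_one]
    have e1 := hSf (fun C => nu ι C) hnui
    have e2 := hSf (fun C => V 3 (nu ι C)) (fun C hC => by rw [hnui C hC])
    obtain ⟨h4, h5⟩ := V_prod (m := 3) (by norm_num) S (fun C => nu ι C)
      (fun C hC => hnu1 C (hS hC))
    have h6 : ∏ C ∈ S, nu ι C ≤ 1.1 := by
      rw [e1] at hPM
      nlinarith
    have h7 : V 3 (∏ C ∈ S, nu ι C) ≤ V 3 1.1 := V_mono (by norm_num) h4 h6
    have hV0 : 0 ≤ ∏ C ∈ S, V 3 (nu ι C) := Finset.prod_nonneg fun C hC => by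
      linarith [one_le_V (show (0 : ℝ) < 3 by norm_num)
        (show 0 < nu ι C by linarith [hnu1 C (hS hC)])]
    rw [e2] at hineq
    have h8 : ((∏ C ∈ S, V 3 (nu ι C)) ^ 2) ^ 2 ≤ (V 3 1.1) ^ 4 := by
      rw [← pow_mul]
      exact pow_le_pow_left₀ hV0 (h5.trans h7) 4
    have h9 : (V 3 1.1) ^ 4 < 49 / 36 := by
      unfold V
      norm_num
    have hk2 : 2 ≤ (blocks z α).card := by
      by_contra hk
      have hk1 : (blocks z α).card = 1 := by
        have : 0 < (blocks z α).card := Finset.card_pos.mpr ⟨_, hmemO 1⟩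
        omega
      have h10 := hSf (fun _ => 2) (fun _ _ => rfl)
      rw [Finset.prod_const, Finset.prod_const, hk1, ← pow_mul] at h10
      have h11 := pow_right_injective₀ (by norm_num) (by norm_num) h10
      omega
    set k := (blocks z α).card with hkdef
    obtain ⟨j, hj⟩ : ∃ j, k = j + 2 := ⟨k - 2, by omega⟩
    have h10 : (7 : ℝ) ^ k < (2 * 3) ^ k * (49 / 36) :=
      lt_of_le_of_lt hineq (mul_lt_mul_of_pos_left (lt_of_le_of_lt h8 h9) (by positivity))
    rw [hj, pow_add, pow_add] at h10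
    have h12 : (0 : ℝ) < 6 ^ j := by positivity
    have h11 : (6 : ℝ) ^ j ≤ 7 ^ j := pow_le_pow_left₀ (by norm_num) (by norm_num) j
    norm_num at h10
    nlinarith

end Pool.Agent.Q168.LA
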