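import Mathlib
import Pool.Agent.Q168.LA.Core
import Pool.Agent.H338R2.Smyth2

/-!
# From complex numbers to Galois number fields
-/

set_option autoImplicit false

namespace Pool.Agent.Q168.LA

open Polynomial Module

lemma one_le_multiset (t : Multiset ℂ) : 1 ≤ (t.map (fun a => max 1 ‖a‖)).prod := by
  induction t using Multiset.induction_on with
  | empty => simp
  | cons a t ih =>
    rw [Multiset.map_cons, Multiset.prod_cons]
    exact one_le_mul_of_one_le_of_one_le (le_max_left _ _) ih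

/-- The product over a set of zeros is at most the Mahler measure. -/
lemma prod_max_le {p : ℂ[X]} (hlc : 1 ≤ ‖p.leadingCoeff‖) (hp0 : p ≠ 0) (S : Finset ℂ)
    (hS : ∀ z ∈ S, p.eval z = 0) : ∏ z ∈ S, max 1 ‖z‖ ≤ p.mahlerMeasure := by
  rw [mahlerMeasure_eq_leadingCoeff_mul_prod_roots]
  have hle : S.val ≤ p.roots := by
    rw [Multiset.le_iff_subset S.nodup]
    intro z hz
    exact (mem_roots hp0).mpr (hS z hz)
  obtain ⟨t, ht⟩ := Multiset.le_iff_exists_add.mp hle
  rw [ht, Multiset.map_add, Multiset.prod_add]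
  have h1 := one_le_multiset t
  have h2 : (S.val.map (fun a => max 1 ‖a‖)).prod = ∏ z ∈ S, max 1 ‖z‖ := rfl
  rw [h2]
  have h3 : 0 ≤ ∏ z ∈ S, max 1 ‖z‖ :=
    Finset.prod_nonneg fun z _ => le_trans zero_le_one (le_max_left _ _)
  set A := ∏ z ∈ S, max 1 ‖z‖
  set B := (t.map (fun a => max 1 ‖a‖)).prod
  have h4 : A ≤ A * B := le_mul_of_one_le_right h3 h1
  have h5 : A * B ≤ ‖p.leadingCoeff‖ * (A * B) :=
    le_mul_of_one_le_left (mul_nonneg h3 (by linarith)) hlc
  linarith

/-- A Galois number field inside the complex numbers containing given algebraic numbers. -/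
lemma exists_galois (q : ℚ[X]) (hq : q ≠ 0) :
    ∃ E : IntermediateField ℚ ℂ, NumberField E ∧ IsGalois ℚ E ∧
      ∀ z : ℂ, aeval z q = 0 → z ∈ E := by
  set E := IntermediateField.adjoin ℚ (q.rootSet ℂ) with hE
  have hs : q.IsSplittingField ℚ E :=
    IntermediateField.adjoin_rootSet_isSplittingField
      (IsAlgClosed.splits (q.map (algebraMap ℚ ℂ)))
  have : FiniteDimensional ℚ E := IsSplittingField.finiteDimensional E q
  have : Normal ℚ E := Normal.of_isSplittingField q
  refine ⟨E, ⟨⟩, ⟨⟩, ?_⟩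
  intro z hz
  apply IntermediateField.subset_adjoin
  rw [mem_rootSet]
  exact ⟨hq, hz⟩

/-- **Numbers of degree at most three over a cyclotomic field**, monic case. -/
theorem monic_case {p : ℤ[X]} (hp : p.Monic) (hirr : Irreducible p) (h0 : |p.coeff 0| = 1)
    {α : ℂ} (hα : aeval α p = 0) (hroot : ∀ n : ℕ, 0 < n → α ^ n ≠ 1) {N : ℕ} (hN : 0 < N)
    {g : ℂ[X]} (hg0 : g ≠ 0) (hg3 : g.natDegree ≤ 3)
    (hgc : ∀ i, g.coeff i ∈ IntermediateField.adjoin ℚ {z : ℂ | z ^ N = 1})
    (hgα : g.eval α = 0) : 1.21 < (p.map (Int.castRingHom ℂ)).mahlerMeasure := by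
  classical
  have hinjZ : Function.Injective (Int.castRingHom ℂ) := RingHom.injective_int _
  have hpC : p.map (Int.castRingHom ℂ) ≠ 0 := (Polynomial.map_ne_zero_iff hinjZ).mpr hp.ne_zero
  have hα0 : α ≠ 0 := by
    rintro rfl
    have h1 : aeval (0 : ℂ) p = ((p.coeff 0 : ℤ) : ℂ) := by
      rw [aeval_def, eval₂_at_zero]
      rfl
    rw [h1] at hα
    have h2 : p.coeff 0 = 0 := by exact_mod_cast hα
    rw [h2] at h0
    norm_num at h0
  -- the reciprocal alternative
  by_cases hrecip : p = C (p.coeff 0) * p.reverse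
  swap
  · have h1 := Pool.Agent.H338R2.smyth_lite hp h0 hrecip
    change (p.map (Int.castRingHom ℂ)).mahlerMeasure ≤
      2 * ((p.map (Int.castRingHom ℂ)).mahlerMeasure ^ 2 - 1) at h1
    have h2 := one_le_mahlerMeasure_of_ne_zero hp.ne_zero
    by_contra hcon
    push Not at hcon
    nlinarith
  have hαinv : aeval α⁻¹ p = 0 := by
    rw [hrecip, map_mul]
    have h1 : aeval α⁻¹ p.reverse = 0 := by
      let _ : Invertible α := invertibleOfNonzero hα0
      have := (eval₂_reverse_eq_zero_iff (algebraMap ℤ ℂ) α p).mpr hα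
      rwa [invOf_eq_inv] at this
    rw [h1, mul_zero]
  have hαint : IsIntegral ℤ α := ⟨p, hp, hα⟩
  have hαiint : IsIntegral ℤ α⁻¹ := ⟨p, hp, hαinv⟩
  -- the field
  set ζ : ℂ := Complex.exp (2 * Real.pi * Complex.I / N) with hζdef
  have : NeZero N := ⟨hN.ne'⟩
  have hζ : IsPrimitiveRoot ζ N := Complex.isPrimitiveRoot_exp N (NeZero.ne N)
  obtain ⟨E, hE1, hE2, hE3⟩ := exists_galois (p.map (Int.castRingHom ℚ) * (X ^ N - 1))
    (mul_ne_zero ((Polynomial.map_ne_zero_iff (RingHom.injective_int _)).mpr hp.ne_zero)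
      (monic_X_pow_sub_C (1 : ℚ) hN.ne').ne_zero)
  have haev : ∀ x : ℂ, aeval x (p.map (Int.castRingHom ℚ)) = aeval x p := by
    intro x
    rw [aeval_def, eval₂_map, aeval_def]
    congr 1
  have hαE : α ∈ E := hE3 α (by rw [map_mul, haev, hα, zero_mul])
  have hζE : ζ ∈ E := hE3 ζ (by
    rw [map_mul, map_sub, map_pow, aeval_X, map_one, hζ.pow_eq_one, sub_self, mul_zero])
  set ι : E →+* ℂ := algebraMap E ℂ with hι
  have hιinj : Function.Injective ι := ι.injective
  set a : E := ⟨α, hαE⟩ with ha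
  set z : E := ⟨ζ, hζE⟩ with hz
  have hza : ι a = α := rfl
  have hzz : ι z = ζ := rfl
  have hzprim : IsPrimitiveRoot z N := IsPrimitiveRoot.of_map_of_injective (f := ι)
    (by rw [hzz]; exact hζ) hιinj
  have hinta : IsIntegral ℤ a := (isIntegral_algebraMap_iff hιinj).mp (by
    change IsIntegral ℤ (ι a)
    rw [hza]
    exact hαint)
  have hinva : IsIntegral ℤ a⁻¹ := (isIntegral_algebraMap_iff hιinj).mp (by
    change IsIntegral ℤ (ι a⁻¹)
    rw [map_inv₀, hza]
    exact hαiint)
  have ha0 : a ≠ 0 := by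
    intro h
    apply hα0
    rw [← hza, h, map_zero]
  have hroota : ∀ n : ℕ, 0 < n → a ^ n ≠ 1 := by
    intro n hn h
    apply hroot n hn
    rw [← hza, ← map_pow, h, map_one]
  have hιaev : ∀ (x : E), ι (aeval x p) = aeval (ι x) p := by
    intro x
    rw [aeval_def, aeval_def, hom_eval₂]
    congr 1
  have hpa : aeval a p = 0 := by
    apply hιinj
    rw [hιaev, hza, hα, map_zero]
  have hsp : ∀ s : E ≃ₐ[ℚ] E, aeval (s a) p = 0 := by
    intro s
    rw [aeval_alg, hpa, map_zero]
  -- coefficients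
  have hcoef : ∀ c ∈ IntermediateField.adjoin ℚ {x : ℂ | x ^ N = 1},
      ∃ c' : E, ι c' = c ∧ ∀ s : E ≃ₐ[ℚ] E, s z = z → s c' = c' := by
    intro c hc
    induction hc using IntermediateField.adjoin_induction with
    | mem x hx =>
      obtain ⟨i, -, rfl⟩ := hζ.eq_pow_of_pow_eq_one hx
      exact ⟨z ^ i, by rw [map_pow, hzz], fun s hs => by rw [map_pow, hs]⟩
    | algebraMap x =>
      exact ⟨algebraMap ℚ E x, rfl, fun s _ => s.commutes x⟩
    | add x y _ _ hx hy =>
      obtain ⟨x', hx1, hx2⟩ := hx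
      obtain ⟨y', hy1, hy2⟩ := hy
      exact ⟨x' + y', by rw [map_add, hx1, hy1], fun s hs => by
        rw [map_add, hx2 s hs, hy2 s hs]⟩
    | inv x _ hx =>
      obtain ⟨x', hx1, hx2⟩ := hx
      exact ⟨x'⁻¹, by rw [map_inv₀, hx1], fun s hs => by rw [map_inv₀, hx2 s hs]⟩
    | mul x y _ _ hx hy =>
      obtain ⟨x', hx1, hx2⟩ := hx
      obtain ⟨y', hy1, hy2⟩ := hy
      exact ⟨x' * y', by rw [map_mul, hx1, hy1], fun s hs => by
        rw [map_mul, hx2 s hs, hy2 s hs]⟩
  choose c hc1 hc2 using fun i => hcoef (g.coeff i) (hgc i)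
  set G : E[X] := ∑ i ∈ Finset.range 4, C (c i) * X ^ i with hG
  have hGmap : G.map ι = g := by
    rw [hG, Polynomial.map_sum]
    have h1 : g = ∑ i ∈ Finset.range 4, C (g.coeff i) * X ^ i := by
      conv_lhs => rw [Polynomial.as_sum_range_C_mul_X_pow' g (show g.natDegree < 4 by omega)]
    conv_rhs => rw [h1]
    refine Finset.sum_congr rfl fun i _ => ?_
    rw [Polynomial.map_mul, Polynomial.map_pow, map_C, map_X, hc1]
  have hG0 : G ≠ 0 := by
    intro h
    rw [h, Polynomial.map_zero] at hGmap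
    exact hg0 hGmap.symm
  have hGdeg : G.natDegree ≤ 3 := by
    rw [← natDegree_map_eq_of_injective hιinj G, hGmap]
    exact hg3
  have hGa : G.eval a = 0 := by
    apply hιinj
    rw [map_zero, ← hgα, ← hGmap, ← hza, eval_map, eval₂_at_apply]
  have hGs : ∀ s : E ≃ₐ[ℚ] E, s z = z → G.eval (s a) = 0 := by
    intro s hs
    have h1 : G.eval (s a) = s (G.eval a) := by
      rw [hG, eval_finsetSum, eval_finsetSum, map_sum]
      refine Finset.sum_congr rfl fun i _ => ?_
      rw [eval_mul, eval_pow, eval_C, eval_X, eval_mul, eval_pow, eval_C, eval_X, map_mul,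
        map_pow, hc2 i s hs]
    rw [h1, hGa, map_zero]
  have hcard : (blk z a).card ≤ 3 := by
    have hsub : blk z a ⊆ G.roots.toFinset := by
      intro y hy
      obtain ⟨s, hs, rfl⟩ := mem_blk.mp hy
      rw [Multiset.mem_toFinset, mem_roots hG0]
      exact hGs s hs
    calc (blk z a).card ≤ G.roots.toFinset.card := Finset.card_le_card hsub
      _ ≤ Multiset.card G.roots := Multiset.toFinset_card_le _
      _ ≤ G.natDegree := card_roots' G
      _ ≤ 3 := hGdeg
  -- reciprocity
  have hrec : ∃ τ : E ≃ₐ[ℚ] E, τ a = a⁻¹ := by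
    have hq : Irreducible (p.map (Int.castRingHom ℚ)) :=
      (hp.irreducible_iff_irreducible_map_fraction_map (K := ℚ)).mp hirr
    have hqm : (p.map (Int.castRingHom ℚ)).Monic := hp.map _
    have haevE : ∀ x : E, aeval x (p.map (Int.castRingHom ℚ)) = aeval x p := by
      intro x
      rw [aeval_def, eval₂_map, aeval_def]
      congr 1
    have h1 : minpoly ℚ a = p.map (Int.castRingHom ℚ) :=
      (minpoly.eq_of_irreducible_of_monic hq (by rw [haevE, hpa]) hqm).symm
    have h2 : minpoly ℚ a⁻¹ = p.map (Int.castRingHom ℚ) :=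
      (minpoly.eq_of_irreducible_of_monic hq (by
        rw [haevE]
        apply hιinj
        rw [hιaev, map_inv₀, hza, hαinv, map_zero]) hqm).symm
    have hc : IsConjRoot ℚ a⁻¹ a := by
      unfold IsConjRoot
      rw [h1, h2]
    obtain ⟨σ, hσ⟩ := hc.exists_algEquiv
    exact ⟨σ, hσ⟩
  -- Mahler measure
  refine core ι hzprim hinta hinva ha0 hroota hcard (fun _ => hrec) ?_
  intro S hS
  have h1 : ∏ y ∈ S, max 1 ‖ι y‖ = ∏ x ∈ S.image ι, max 1 ‖x‖ := by
    rw [Finset.prod_image (fun a _ b _ h => hιinj h)]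
  rw [h1]
  apply prod_max_le _ hpC
  · intro x hx
    obtain ⟨y, hy, rfl⟩ := Finset.mem_image.mp hx
    obtain ⟨s, rfl⟩ := hS y hy
    have h2 := hιaev (s a)
    rw [hsp s, map_zero] at h2
    rw [eval_map]
    exact h2.symm
  · rw [(hp.map (Int.castRingHom ℂ)).leadingCoeff, norm_one]

/-- **Numbers of degree at most three over a cyclotomic field.** -/
theorem main {f : ℤ[X]} (hf : f ≠ 0) {α : ℂ} (hα : aeval α f = 0) (hα0 : α ≠ 0)
    (hroot : ∀ n : ℕ, 0 < n → α ^ n ≠ 1) {N : ℕ} (hN : 0 < N)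
    {g : ℂ[X]} (hg0 : g ≠ 0) (hg3 : g.natDegree ≤ 3)
    (hgc : ∀ i, g.coeff i ∈ IntermediateField.adjoin ℚ {z : ℂ | z ^ N = 1})
    (hgα : g.eval α = 0) : 1.21 < (f.map (Int.castRingHom ℂ)).mahlerMeasure := by
  classical
  have hinjZ : Function.Injective (Int.castRingHom ℂ) := RingHom.injective_int _
  have hnorm : ∀ q : ℤ[X], ‖(q.map (Int.castRingHom ℂ)).leadingCoeff‖ =
      |((q.leadingCoeff : ℤ) : ℝ)| := by
    intro q
    rw [leadingCoeff_map_of_injective hinjZ]
    simp
  -- large leading coefficient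
  by_cases hbig : 2 ≤ |f.leadingCoeff|
  · rw [mahlerMeasure_eq_leadingCoeff_mul_prod_roots, hnorm]
    have h1 : (2 : ℝ) ≤ |((f.leadingCoeff : ℤ) : ℝ)| := by exact_mod_cast hbig
    have h2 := one_le_multiset (f.map (Int.castRingHom ℂ)).roots
    nlinarith
  have hlf0 : f.leadingCoeff ≠ 0 := leadingCoeff_ne_zero.mpr hf
  have hint : IsIntegral ℤ α := by
    have h1 : f.leadingCoeff = 1 ∨ f.leadingCoeff = -1 := by
      have h2 : |f.leadingCoeff| = 1 := by
        have := Int.one_le_abs hlf0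
        omega
      exact (abs_eq (by norm_num)).mp h2
    rcases h1 with h1 | h1
    · exact ⟨f, h1, hα⟩
    · refine ⟨-f, ?_, ?_⟩
      · rw [Monic, leadingCoeff_neg, h1]
        norm_num
      · rw [eval₂_neg, neg_eq_zero]
        exact hα
  set p := minpoly ℤ α with hp
  have hpm : p.Monic := minpoly.monic hint
  have hpi : Irreducible p := minpoly.irreducible hint
  have hpα : aeval α p = 0 := minpoly.aeval ℤ α
  obtain ⟨q, hq⟩ : p ∣ f := minpoly.isIntegrallyClosed_dvd hint hα
  have hq0 : q ≠ 0 := by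
    rintro rfl
    rw [mul_zero] at hq
    exact hf hq
  have hMle : (p.map (Int.castRingHom ℂ)).mahlerMeasure ≤
      (f.map (Int.castRingHom ℂ)).mahlerMeasure := by
    rw [hq, Polynomial.map_mul, mahlerMeasure_mul]
    exact le_mul_of_one_le_right (mahlerMeasure_nonneg _) (one_le_mahlerMeasure_of_ne_zero hq0)
  refine lt_of_lt_of_le ?_ hMle
  by_cases h0 : |p.coeff 0| = 1
  · exact monic_case hpm hpi h0 hpα hroot hN hg0 hg3 hgc hgα
  -- constant coefficient at least two
  have hc0 : p.coeff 0 ≠ 0 := by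
    intro h
    have h1 : X ∣ p := X_dvd_iff.mpr h
    obtain ⟨r, hr⟩ := h1
    have h2 : IsUnit r := by
      rcases hpi.isUnit_or_isUnit hr with h2 | h2
      · exact absurd h2 not_isUnit_X
      · exact h2
    have h3 : aeval α r ≠ 0 := by
      obtain ⟨u, hu1, hu2⟩ := isUnit_iff.mp h2
      rw [← hu2, aeval_C]
      have : IsUnit (algebraMap ℤ ℂ u) := hu1.map _
      exact this.ne_zero
    rw [hr, map_mul, aeval_X] at hpα
    rcases mul_eq_zero.mp hpα with h4 | h4
    · exact hα0 h4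
    · exact h3 h4
  have h2 : 2 ≤ |p.coeff 0| := by
    have := Int.one_le_abs hc0
    omega
  have hpC0 : (p.map (Int.castRingHom ℂ)).coeff 0 = ((p.coeff 0 : ℤ) : ℂ) := by
    rw [coeff_map]
    rfl
  have h3 := Polynomial.Splits.coeff_zero_eq_prod_roots_of_monic
    (IsAlgClosed.splits (p.map (Int.castRingHom ℂ))) (hpm.map _)
  have h4 : (2 : ℝ) ≤ ((p.map (Int.castRingHom ℂ)).roots.map (fun a => max 1 ‖a‖)).prod := by
    have h5 : ‖(p.map (Int.castRingHom ℂ)).roots.prod‖ = |((p.coeff 0 : ℤ) : ℝ)| := by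
      rw [hpC0] at h3
      have := congrArg norm h3
      rw [norm_mul, norm_pow, norm_neg, norm_one, one_pow, one_mul, Complex.norm_intCast] at this
      exact this.symm
    have h6 : ∀ t : Multiset ℂ, ‖t.prod‖ ≤ (t.map (fun a => max 1 ‖a‖)).prod := by
      intro t
      induction t using Multiset.induction_on with
      | empty => simp
      | cons a t ih =>
        rw [Multiset.prod_cons, Multiset.map_cons, Multiset.prod_cons, norm_mul]
        exact mul_le_mul (le_max_right _ _) ih (norm_nonneg _)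
          (le_trans zero_le_one (le_max_left _ _))
    refine le_trans ?_ (h6 _)
    rw [h5]
    exact_mod_cast h2
  rw [mahlerMeasure_eq_leadingCoeff_mul_prod_roots, hnorm, hpm.leadingCoeff]
  norm_num
  linarith

end Pool.Agent.Q168.LA
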